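import Pool.Agent.H.MP_48f3d1_lc.Lin.Dec
import Pool.Agent.H.MP_48f3d1_lc.Two

/-! The classification of the F-presentations among the equations without repetitions on a
side. -/

namespace Pool.Agent.H.MP_48f3d1_lc.Lin

section

variable {ι : Type}

/-- no letters `p ≠ q` at balanced positions -/
def NoP (u v : List ι) : Prop :=
  ∀ (l : List ι) (p : ι) (r l' : List ι) (q : ι) (r' : List ι), u = l ++ p :: r →
    v = l' ++ q :: r' → l.Perm l' → r.Perm r' → p = q

theorem NoP.symm {u v : List ι} (h : NoP u v) : NoP v u :=
  fun l p r l' q r' h1 h2 h3 h4 => (h l' q r' l p r h2 h1 h3.symm h4.symm).symm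

/-- a solution which distinguishes `x` and `y`, first case -/
theorem inj_aux {u v : List ι} (hu : u.Nodup) (hv : v.Nodup) (huv : u ⊆ v ↔ v ⊆ u)
    (hP : NoP u v) {x y : ι} (hxy : x ≠ y) (hx : x ∈ u) (hx' : x ∉ v)
    (hy : ¬ (y ∈ u ↔ y ∈ v)) : ∃ k : ι → List Bool, flat k u = flat k v ∧ k x ≠ k y := by
  classical
  obtain ⟨q, hq, hq'⟩ : ∃ q, q ∈ v ∧ q ∉ u := by
    by_contra hcon
    push Not at hcon
    exact hx' (huv.2 hcon hx)
  by_cases h1 : ∃ q, q ∈ v ∧ q ∉ u ∧ q ≠ y
  · obtain ⟨q, hq, hq', hqy⟩ := h1
    obtain ⟨k, h2, h3, -, h5⟩ := witness2 [true] hu hv hx hx' hq hq'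
    refine ⟨k, h2, ?_⟩
    rw [h3, h5 y hxy.symm hqy.symm]
    simp
  · push Not at h1
    have hqy := h1 q hq hq'
    subst hqy
    by_cases h2 : ∃ p, p ∈ u ∧ p ∉ v ∧ p ≠ x
    · obtain ⟨p, hp, hp', hpx⟩ := h2
      obtain ⟨k, h3, -, h4, h5⟩ := witness2 [true] hu hv hp hp' hq hq'
      refine ⟨k, h3, ?_⟩
      rw [h4, h5 x hpx.symm hxy]
      simp
    · push Not at h2
      obtain ⟨u1, u2, rfl⟩ := List.append_of_mem hx
      obtain ⟨v1, v2, rfl⟩ := List.append_of_mem hq
      have nu := notMem_of_nodup hu
      have nv := notMem_of_nodup hv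
      have du : ∀ a, a ∈ u1 → a ∉ u2 := by
        intro a ha hb
        exact (List.nodup_append.1 hu).2.2 a ha a (List.mem_cons_of_mem _ hb) rfl
      have dv : ∀ a, a ∈ v1 → a ∉ v2 := by
        intro a ha hb
        exact (List.nodup_append.1 hv).2.2 a ha a (List.mem_cons_of_mem _ hb) rfl
      have ndu : u1.Nodup ∧ u2.Nodup := ⟨(List.nodup_append.1 hu).1,
        (List.nodup_cons.1 (List.nodup_append.1 hu).2.1).2⟩
      have ndv : v1.Nodup ∧ v2.Nodup := ⟨(List.nodup_append.1 hv).1,
        (List.nodup_cons.1 (List.nodup_append.1 hv).2.1).2⟩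
      have hsame : ∀ a, (a ∈ u1 ∨ a ∈ u2) ↔ (a ∈ v1 ∨ a ∈ v2) := by
        intro a
        constructor
        · intro ha
          have hau : a ∈ u1 ++ x :: u2 := by
            simp only [List.mem_append, List.mem_cons]
            tauto
          by_contra hcon
          have hav : a ∉ v1 ++ q :: v2 := by
            intro h3
            simp only [List.mem_append, List.mem_cons] at h3
            rcases h3 with h3 | h3 | h3
            · exact hcon (Or.inl h3)
            · exact hq' (h3 ▸ hau)
            · exact hcon (Or.inr h3)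
          have := h2 a hau hav
          subst this
          tauto
        · intro ha
          have hav : a ∈ v1 ++ q :: v2 := by
            simp only [List.mem_append, List.mem_cons]
            tauto
          by_contra hcon
          have hau : a ∉ u1 ++ x :: u2 := by
            intro h3
            simp only [List.mem_append, List.mem_cons] at h3
            rcases h3 with h3 | h3 | h3
            · exact hcon (Or.inl h3)
            · exact hx' (h3 ▸ hav)
            · exact hcon (Or.inr h3)
          have := h1 a hav hau
          subst this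
          tauto
      have hxq := hxy
      by_cases hA : ∃ z, z ∈ u1 ∧ z ∉ v1
      · obtain ⟨z, hz, hz'⟩ := hA
        have hz2 : z ∈ v2 := by
          rcases (hsame z).1 (Or.inl hz) with h3 | h3
          · exact absurd h3 hz'
          · exact h3
        have hzx : z ≠ x := fun h => nu.1 (h ▸ hz)
        have hzq : z ≠ q := fun h => nv.2 (h ▸ hz2)
        let k : ι → List Bool := fun a => if a = z then [true] else
          if a = x then [false, true] else if a = q then [true, false] else []
        have kz : k z = [true] := by simp [k]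
        have kx : k x = [false, true] := by simp [k, hzx.symm]
        have kq : k q = [true, false] := by simp [k, hzq.symm, hxy.symm]
        have ko : ∀ a, a ≠ z → a ≠ x → a ≠ q → k a = [] := by
          intro a h3 h4 h5
          simp [k, h3, h4, h5]
        have hqu : ∀ a ∈ u1 ++ x :: u2, a ≠ q := fun a ha h => hq' (h ▸ ha)
        have hxv : ∀ a ∈ v1 ++ q :: v2, a ≠ x := fun a ha h => hx' (h ▸ ha)
        have e1 : flat k u1 = [true] := by
          rw [flat_one k u1 ndu.1 z hz, kz]
          intro a ha h3
          exact ko a h3 (fun h => nu.1 (h ▸ ha)) (hqu a (by simp [ha]))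
        have e2 : flat k u2 = [] := by
          apply flat_off
          intro a ha
          exact ko a (fun h => du z hz (h ▸ ha)) (fun h => nu.2 (h ▸ ha))
            (hqu a (by simp [ha]))
        have e3 : flat k v2 = [true] := by
          rw [flat_one k v2 ndv.2 z hz2, kz]
          intro a ha h3
          exact ko a h3 (hxv a (by simp [ha])) (fun h => nv.2 (h ▸ ha))
        have e4 : flat k v1 = [] := by
          apply flat_off
          intro a ha
          exact ko a (fun h => hz' (h ▸ ha)) (hxv a (by simp [ha]))
            (fun h => nv.1 (h ▸ ha))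
        refine ⟨k, ?_, ?_⟩
        · rw [flat_append, flat_append, flat_cons, flat_cons, e1, e2, e3, e4, kx, kq]
          rfl
        · rw [kx, kq]
          simp
      · by_cases hB : ∃ z, z ∈ v1 ∧ z ∉ u1
        · obtain ⟨z, hz, hz'⟩ := hB
          have hz2 : z ∈ u2 := by
            rcases (hsame z).2 (Or.inl hz) with h3 | h3
            · exact absurd h3 hz'
            · exact h3
          have hzx : z ≠ x := fun h => nu.2 (h ▸ hz2)
          have hzq : z ≠ q := fun h => nv.1 (h ▸ hz)
          let k : ι → List Bool := fun a => if a = z then [true] else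
            if a = x then [true, false] else if a = q then [false, true] else []
          have kz : k z = [true] := by simp [k]
          have kx : k x = [true, false] := by simp [k, hzx.symm]
          have kq : k q = [false, true] := by simp [k, hzq.symm, hxy.symm]
          have ko : ∀ a, a ≠ z → a ≠ x → a ≠ q → k a = [] := by
            intro a h3 h4 h5
            simp [k, h3, h4, h5]
          have hqu : ∀ a ∈ u1 ++ x :: u2, a ≠ q := fun a ha h => hq' (h ▸ ha)
          have hxv : ∀ a ∈ v1 ++ q :: v2, a ≠ x := fun a ha h => hx' (h ▸ ha)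
          have e1 : flat k u2 = [true] := by
            rw [flat_one k u2 ndu.2 z hz2, kz]
            intro a ha h3
            exact ko a h3 (fun h => nu.2 (h ▸ ha)) (hqu a (by simp [ha]))
          have e2 : flat k u1 = [] := by
            apply flat_off
            intro a ha
            exact ko a (fun h => hz' (h ▸ ha)) (fun h => nu.1 (h ▸ ha))
              (hqu a (by simp [ha]))
          have e3 : flat k v1 = [true] := by
            rw [flat_one k v1 ndv.1 z hz, kz]
            intro a ha h3
            exact ko a h3 (hxv a (by simp [ha])) (fun h => nv.1 (h ▸ ha))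
          have e4 : flat k v2 = [] := by
            apply flat_off
            intro a ha
            exact ko a (fun h => dv z hz (h ▸ ha)) (hxv a (by simp [ha]))
              (fun h => nv.2 (h ▸ ha))
          refine ⟨k, ?_, ?_⟩
          · rw [flat_append, flat_append, flat_cons, flat_cons, e1, e2, e3, e4, kx, kq]
            rfl
          · rw [kx, kq]
            simp
        · exfalso
          push Not at hA hB
          have p1 : u1.Perm v1 := perm_of_subset ndu.1 ndv.1 hA hB
          have p2 : u2.Perm v2 := by
            apply perm_of_subset ndu.2 ndv.2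
            · intro a ha
              rcases (hsame a).1 (Or.inr ha) with h3 | h3
              · exact absurd ha (du a (hB a h3))
              · exact h3
            · intro a ha
              rcases (hsame a).2 (Or.inr ha) with h3 | h3
              · exact absurd ha (dv a (hA a h3))
              · exact h3
          exact hxy (hP u1 x u2 v1 q v2 rfl rfl p1 p2)

/-- a solution which distinguishes `x` and `y` -/
theorem inj_witness {u v : List ι} (hu : u.Nodup) (hv : v.Nodup) (huv : u ⊆ v ↔ v ⊆ u)
    (hP : NoP u v) {x y : ι} (hxy : x ≠ y) :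
    ∃ k : ι → List Bool, flat k u = flat k v ∧ k x ≠ k y := by
  by_cases hx : x ∈ u ↔ x ∈ v
  · obtain ⟨k, h1, h2, h3⟩ := witness [true] hu hv hx
    refine ⟨k, h1, ?_⟩
    rw [h2, h3 y hxy.symm]
    simp
  · by_cases hy : y ∈ u ↔ y ∈ v
    · obtain ⟨k, h1, h2, h3⟩ := witness [true] hu hv hy
      refine ⟨k, h1, ?_⟩
      rw [h2, h3 x hxy]
      simp
    · by_cases h1 : x ∈ u
      · exact inj_aux hu hv huv hP hxy h1 (fun h => hx (iff_of_true h1 h)) hy
      · have h2 : x ∈ v := by
          by_contra h3
          exact hx (iff_of_false h1 h3)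
        obtain ⟨k, h3, h4⟩ := inj_aux hv hu huv.symm hP.symm hxy h2 h1 (fun h => hy h.symm)
        exact ⟨k, h3.symm, h4⟩

/-- coding of a countable alphabet -/
theorem code_injective {σ τ : Type} (e : τ → ℕ) (he : Function.Injective e) {a b : σ}
    (hab : a ≠ b) : Function.Injective
      (flat fun c : τ => List.replicate (e c) a ++ [b]) := by
  intro p
  induction p with
  | nil =>
    intro q h
    cases q with
    | nil => rfl
    | cons d q =>
      rw [flat_nil, flat_cons] at h
      simp at h
  | cons c p ih =>
    intro q h
    cases q with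
    | nil =>
      rw [flat_nil, flat_cons] at h
      simp at h
    | cons d q =>
      rw [flat_cons, flat_cons, List.append_assoc, List.append_assoc] at h
      have key : ∀ m n : ℕ, ∀ s t : List σ, List.replicate m a ++ ([b] ++ s) =
          List.replicate n a ++ ([b] ++ t) → m = n ∧ s = t := by
        intro m
        induction m with
        | zero =>
          intro n s t h
          cases n with
          | zero => simpa using h
          | succ n =>
            exfalso
            simp only [List.replicate_zero, List.nil_append, List.replicate_succ,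
              List.cons_append, List.cons.injEq] at h
            exact hab h.1.symm
        | succ m ihm =>
          intro n s t h
          cases n with
          | zero =>
            exfalso
            simp only [List.replicate_zero, List.nil_append, List.replicate_succ,
              List.cons_append, List.cons.injEq] at h
            exact hab h.1
          | succ n =>
            simp only [List.replicate_succ, List.cons_append, List.cons.injEq, true_and] at h
            obtain ⟨h1, h2⟩ := ihm n s t (by simpa using h)
            exact ⟨by rw [h1], h2⟩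
      obtain ⟨h1, h2⟩ := key _ _ _ _ h
      rw [he h1, ih h2]

theorem lift_flat {σ : Type} (k : ι → List σ) (w : List ι) :
    FreeMonoid.lift (fun i => FreeMonoid.ofList (k i)) (FreeMonoid.ofList w) =
      FreeMonoid.ofList (flat k w) := by
  induction w with
  | nil => rfl
  | cons a w ih =>
    rw [FreeMonoid.ofList_cons, map_mul, ih, FreeMonoid.lift_eval_of, flat_cons,
      FreeMonoid.ofList_append]

theorem hom_flat {σ : Type} (h : FreeMonoid ι →* FreeMonoid σ) (w : List ι) :
    h (FreeMonoid.ofList w) =
      FreeMonoid.ofList (flat (fun i => FreeMonoid.toList (h (FreeMonoid.of i))) w) := by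
  induction w with
  | nil => exact map_one h
  | cons a w ih =>
    rw [FreeMonoid.ofList_cons, map_mul, ih, flat_cons, FreeMonoid.ofList_append]
    rfl

/-- sufficiency of the conditions -/
theorem suff [Countable ι] {σ : Type} [Nontrivial σ] {u v : List ι} (hu : u.Nodup)
    (hv : v.Nodup) (huv : u ⊆ v ↔ v ⊆ u) (hC : NoC u v) (hP : NoP u v) :
    ∃ X : ι → FreeMonoid σ, FPresents {(FreeMonoid.ofList u, FreeMonoid.ofList v)} X ∧
      ∀ τ : Type, Equivalent τ {(FreeMonoid.ofList u, FreeMonoid.ofList v)} (rel X) := by
  obtain ⟨T, ⟨τ, hτ, k, h1, h2, h3⟩, -, h4⟩ := decomp _ u v rfl hu hv huv hC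
  obtain ⟨e, he⟩ := hτ.exists_injective_nat
  obtain ⟨a, b, hab⟩ := exists_pair_ne σ
  have hc := code_injective e he hab
  set θ : τ → List σ := fun c => List.replicate (e c) a ++ [b] with hθ
  let X : ι → FreeMonoid σ := fun i => FreeMonoid.ofList (flat θ (k i))
  have hX : ∀ w : List ι, FreeMonoid.lift X (FreeMonoid.ofList w) =
      FreeMonoid.ofList (flat θ (flat k w)) := by
    intro w
    rw [lift_flat, flat_flat]
  have hXr : ∀ p q : List ι, FreeMonoid.lift X (FreeMonoid.ofList p) =
      FreeMonoid.lift X (FreeMonoid.ofList q) → flat k p = flat k q := by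
    intro p q h
    rw [hX, hX] at h
    exact hc (FreeMonoid.ofList.injective h)
  have hsol : flat k u = flat k v := (h4 τ k).2 h2
  have hE : ∀ τ : Type,
      Equivalent τ {(FreeMonoid.ofList u, FreeMonoid.ofList v)} (rel X) := by
    intro τ' h
    constructor
    · intro hh e' he'
      have h5 : FreeMonoid.lift X e'.1 = FreeMonoid.lift X e'.2 := he'
      have h6 := hXr (FreeMonoid.toList e'.1) (FreeMonoid.toList e'.2)
        (by simpa using h5)
      have h7 : h (FreeMonoid.ofList u) = h (FreeMonoid.ofList v) := hh _ rfl
      rw [hom_flat, hom_flat] at h7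
      have h8 := (h4 _ _).1 (FreeMonoid.ofList.injective h7)
      have h9 := (h3 _ _ h6).words _ h8
      have h10 := congrArg FreeMonoid.ofList h9
      rw [← hom_flat, ← hom_flat] at h10
      simpa using h10
    · intro hh e' he'
      rw [Set.mem_singleton_iff] at he'
      subst he'
      apply hh (FreeMonoid.ofList u, FreeMonoid.ofList v)
      show FreeMonoid.lift X (FreeMonoid.ofList u) = FreeMonoid.lift X (FreeMonoid.ofList v)
      rw [hX, hX, hsol]
  refine ⟨X, ⟨?_, ?_, ?_, hE σ⟩, hE⟩
  · intro x y hxy
    by_contra hne
    obtain ⟨g, h5, h6⟩ := inj_witness hu hv huv hP hne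
    apply h6
    have h7 : k x = k y := hc (FreeMonoid.ofList.injective hxy)
    have h8 : flat k [x] = flat k [y] := by rw [flat_single, flat_single, h7]
    have h9 := (h3 _ _ h8).words g ((h4 _ g).1 h5)
    rwa [flat_single, flat_single] at h9
  · intro i hi
    have h5 : flat θ (k i) = flat θ [] := FreeMonoid.ofList.injective hi
    exact h1 i (hc h5)
  · intro e' he'
    rw [Set.mem_singleton_iff] at he'
    subst he'
    show FreeMonoid.lift X (FreeMonoid.ofList u) = FreeMonoid.lift X (FreeMonoid.ofList v)
    rw [hX, hX, hsol]

/-- first necessary condition -/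
theorem nec_sub {σ : Type} (X : ι → FreeMonoid σ) {u v : List ι} (hu : u.Nodup)
    (hne : ∀ i, X i ≠ 1)
    (h : FreeMonoid.lift X (FreeMonoid.ofList u) = FreeMonoid.lift X (FreeMonoid.ofList v))
    (hs : u ⊆ v) : v ⊆ u := by
  intro q hq
  by_contra hq'
  rw [hom_flat, hom_flat] at h
  have h1 := FreeMonoid.ofList.injective h
  set k : ι → List σ := fun i => FreeMonoid.toList (FreeMonoid.lift X (FreeMonoid.of i)) with hk
  have h2 : (u ++ [q]).Nodup := by
    rw [List.nodup_append]
    refine ⟨hu, by simp, ?_⟩
    intro a ha b hb hab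
    rw [List.mem_singleton] at hb
    exact hq' (hb ▸ hab ▸ ha)
  have h3 : u ++ [q] ⊆ v := by
    intro a ha
    rcases List.mem_append.1 ha with h4 | h4
    · exact hs h4
    · rw [List.mem_singleton] at h4
      exact h4 ▸ hq
  obtain ⟨w0, hw0, hw1⟩ := h2.subperm h3
  obtain ⟨w, hw2⟩ := hw1.exists_perm_append
  have hw : v.Perm ((u ++ [q]) ++ w) := hw2.trans (List.Perm.append_right w hw0)
  have h5 := flat_length_perm k hw
  rw [← h1, flat_append, flat_append, flat_single, List.length_append, List.length_append] at h5
  have h6 : (k q).length = 0 := by omega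
  have h7 : k q = [] := List.length_eq_zero_iff.1 h6
  apply hne q
  have h8 : FreeMonoid.toList (FreeMonoid.lift X (FreeMonoid.of q)) = [] := h7
  rw [FreeMonoid.lift_eval_of] at h8
  exact FreeMonoid.toList.injective h8

/-- factors at balanced positions have the same image -/
theorem mid_eq {σ : Type} (k : ι → List σ) {l m r l' m' r' : List ι}
    (h : flat k (l ++ m ++ r) = flat k (l' ++ m' ++ r')) (hm : m.Perm m')
    (hb : l.Perm l' ∨ r.Perm r') : flat k m = flat k m' := by
  rcases hb with hb | hb
  · rw [List.append_assoc, List.append_assoc, flat_append, flat_append k l'] at h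
    have h1 := (List.append_inj h (flat_length_perm k hb)).2
    rw [flat_append, flat_append] at h1
    exact (List.append_inj h1 (flat_length_perm k hm)).1
  · rw [flat_append, flat_append k (l' ++ m')] at h
    have h1 := (List.append_inj' h (flat_length_perm k hb)).1
    rw [flat_append, flat_append] at h1
    exact (List.append_inj' h1 (flat_length_perm k hm)).2

theorem lift_app {σ : Type} (X : ι → FreeMonoid σ) (p q : List ι) :
    FreeMonoid.lift X (FreeMonoid.ofList (p ++ q)) =
      FreeMonoid.lift X (FreeMonoid.ofList p) * FreeMonoid.lift X (FreeMonoid.ofList q) := by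
  rw [FreeMonoid.ofList_append, map_mul]

/-- second necessary condition -/
theorem nec_C {σ : Type} [Nonempty σ] (X : ι → FreeMonoid σ) {u v : List ι} (hu : u.Nodup)
    (hv : v.Nodup)
    (hF : FPresents {(FreeMonoid.ofList u, FreeMonoid.ofList v)} X) : NoC u v := by
  intro l m r l' m' r' h1 h2 hb hC
  obtain ⟨hinj, hne, hsol, hE⟩ := hF
  obtain ⟨a⟩ := ‹Nonempty σ›
  have h3 : FreeMonoid.lift X (FreeMonoid.ofList u) = FreeMonoid.lift X (FreeMonoid.ofList v) :=
    hsol _ rfl
  have hm := hC.perm
  obtain ⟨P, Q, R, hm1, hm2, hP, hR⟩ := hC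
  have h4 : FreeMonoid.lift X (FreeMonoid.ofList m) =
      FreeMonoid.lift X (FreeMonoid.ofList m') := by
    rw [hom_flat, hom_flat] at h3 ⊢
    have h5 := FreeMonoid.ofList.injective h3
    rw [h1, h2] at h5
    rw [mid_eq _ h5 hm hb]
  set x := FreeMonoid.lift X (FreeMonoid.ofList (P ++ Q)) with hx
  set y := FreeMonoid.lift X (FreeMonoid.ofList (R ++ Q)) with hy
  have hcomm : x * y = y * x := by
    have e1 : x * y = FreeMonoid.lift X (FreeMonoid.ofList m) *
        FreeMonoid.lift X (FreeMonoid.ofList Q) := by
      rw [hx, hy, ← lift_app, ← lift_app, hm1]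
      simp
    have e2 : y * x = FreeMonoid.lift X (FreeMonoid.ofList m') *
        FreeMonoid.lift X (FreeMonoid.ofList Q) := by
      rw [hx, hy, ← lift_app, ← lift_app, hm2]
      simp
    rw [e1, e2, h4]
  have hpow := comm_pow x y hcomm
  obtain ⟨p, hp⟩ := List.exists_mem_of_ne_nil P hP
  have hy0 : y.length ≠ 0 := by
    intro h5
    obtain ⟨r0, R', rfl⟩ := List.exists_cons_of_ne_nil hR
    rw [hy, List.cons_append, FreeMonoid.ofList_cons, map_mul, FreeMonoid.length_mul,
      FreeMonoid.lift_eval_of] at h5
    have h6 : (X r0).length = 0 := by omega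
    exact hne r0 (FreeMonoid.length_eq_zero.1 h6)
  -- the relation given by the powers
  have hrel : ((FreeMonoid.ofList (P ++ Q)) ^ y.length, (FreeMonoid.ofList (R ++ Q)) ^ x.length) ∈
      rel X := by
    show FreeMonoid.lift X _ = FreeMonoid.lift X _
    rw [map_pow, map_pow]
    exact hpow
  have hpu : p ∈ u := by
    rw [h1, hm1]
    simp [hp]
  have hpv : p ∈ v := by
    rw [h2, hm2]
    simp [hp]
  obtain ⟨g, h5, h6, h7⟩ := witness [a] hu hv (iff_of_true hpu hpv)
  have h8 : IsSol {(FreeMonoid.ofList u, FreeMonoid.ofList v)}
      (FreeMonoid.lift fun i => FreeMonoid.ofList (g i)) := by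
    intro e he
    rw [Set.mem_singleton_iff] at he
    subst he
    show FreeMonoid.lift (fun i => FreeMonoid.ofList (g i)) (FreeMonoid.ofList u) =
      FreeMonoid.lift (fun i => FreeMonoid.ofList (g i)) (FreeMonoid.ofList v)
    rw [lift_flat, lift_flat, h5]
  have h9 := ((hE _).1 h8) _ hrel
  simp only [map_pow, lift_flat] at h9
  have hmnd : (P ++ Q ++ R).Nodup := by
    have h10 := hu
    rw [h1, hm1, List.append_assoc, List.append_assoc] at h10
    have h11 := (List.nodup_append.1 h10).2.1
    rw [← List.append_assoc] at h11
    exact (List.nodup_append.1 h11).1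
  have hPQ : (P ++ Q).Nodup := (List.nodup_append.1 hmnd).1
  have h12 : flat g (P ++ Q) = [a] := by
    rw [flat_one g _ hPQ p (by simp [hp]) fun b _ hb => h7 b hb, h6]
  have hpQ : p ∉ Q := fun h => (List.nodup_append.1 hPQ).2.2 p hp p h rfl
  have hpR : p ∉ R := fun h =>
    (List.nodup_append.1 hmnd).2.2 p (by simp [hp]) p h rfl
  have h13 : flat g (R ++ Q) = [] := by
    apply flat_off
    intro b hb
    apply h7
    rintro rfl
    rcases List.mem_append.1 hb with h | h
    · exact hpR h
    · exact hpQ h
  rw [h12, h13] at h9
  have h14 : (FreeMonoid.ofList [a] : FreeMonoid σ) = FreeMonoid.of a := rfl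
  have h15 : (FreeMonoid.ofList [] : FreeMonoid σ) = 1 := rfl
  rw [h14, h15, one_pow] at h9
  have h16 := congrArg FreeMonoid.length h9
  have h17 : ∀ (w : FreeMonoid σ) (n : ℕ), (w ^ n).length = n * w.length := by
    intro w n
    induction n with
    | zero => simp
    | succ n ih =>
      rw [pow_succ, FreeMonoid.length_mul, ih]
      ring
  rw [h17, FreeMonoid.length_one, FreeMonoid.length_of, mul_one] at h16
  exact hy0 h16

/-- third necessary condition -/
theorem nec_P {σ : Type} (X : ι → FreeMonoid σ) (hX : Function.Injective X) {u v : List ι}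
    (h : FreeMonoid.lift X (FreeMonoid.ofList u) = FreeMonoid.lift X (FreeMonoid.ofList v)) :
    NoP u v := by
  intro l p r l' q r' h1 h2 h3 h4
  apply hX
  rw [hom_flat, hom_flat] at h
  have h5 := FreeMonoid.ofList.injective h
  set k : ι → List σ := fun i => FreeMonoid.toList (FreeMonoid.lift X (FreeMonoid.of i)) with hk
  rw [h1, h2, flat_append, flat_append, flat_cons, flat_cons] at h5
  have h6 := (List.append_inj h5 (flat_length_perm k h3)).2
  have h7 := (List.append_inj' h6 (flat_length_perm k h4)).1
  have h8 := FreeMonoid.toList.injective h7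
  rwa [FreeMonoid.lift_eval_of, FreeMonoid.lift_eval_of] at h8

end

end Pool.Agent.H.MP_48f3d1_lc.Lin
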