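import Mathlib

/-! Word equations as pairs of lists: morphisms, consequences in groups, generic solutions, and
the elementary transformation of Levi. -/

namespace Pool.Agent.H.MP_48f3d1_lc.Lin

section

variable {ι σ τ : Type}

/-- the image of a word -/
def flat (h : ι → List σ) (w : List ι) : List σ := w.flatMap h

theorem flat_nil (h : ι → List σ) : flat h [] = [] := rfl

theorem flat_cons (h : ι → List σ) (a : ι) (w : List ι) : flat h (a :: w) = h a ++ flat h w := rfl

theorem flat_append (h : ι → List σ) (v w : List ι) :
    flat h (v ++ w) = flat h v ++ flat h w := by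
  simp [flat, List.flatMap_append]

theorem flat_single (h : ι → List σ) (a : ι) : flat h [a] = h a := by
  simp [flat]

theorem flat_flat (k : σ → List τ) (h : ι → List σ) (w : List ι) :
    flat k (flat h w) = flat (fun a => flat k (h a)) w := by
  induction w with
  | nil => rfl
  | cons a w ih => rw [flat_cons, flat_append, ih, flat_cons]

/-- the value of a word in a group -/
def val {H : Type} [Group H] (g : ι → H) (w : List ι) : H := (w.map g).prod

variable {H : Type} [Group H]

theorem val_nil (g : ι → H) : val g [] = 1 := rfl

theorem val_cons (g : ι → H) (a : ι) (w : List ι) : val g (a :: w) = g a * val g w := by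
  simp [val]

theorem val_append (g : ι → H) (v w : List ι) : val g (v ++ w) = val g v * val g w := by
  simp [val]

theorem val_single (g : ι → H) (a : ι) : val g [a] = g a := by
  simp [val]

theorem val_flat (g : σ → H) (h : ι → List σ) (w : List ι) :
    val g (flat h w) = val (fun a => val g (h a)) w := by
  induction w with
  | nil => rfl
  | cons a w ih => rw [flat_cons, val_append, ih, val_cons]

theorem val_congr (g g' : ι → H) (w : List ι) (h : ∀ a ∈ w, g a = g' a) :
    val g w = val g' w := by
  unfold val
  congr 1
  exact List.map_congr_left h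

end

section

variable {ι : Type}

/-- the equation `p = q` follows from the equations in `T`, in all groups -/
def Cons (T : Set (List ι × List ι)) (p q : List ι) : Prop :=
  ∀ (H : Type) [Group H] (g : ι → H), (∀ e ∈ T, val g e.1 = val g e.2) → val g p = val g q

theorem Cons.refl {T : Set (List ι × List ι)} (p : List ι) : Cons T p p := fun _ _ _ _ => rfl

theorem Cons.symm {T : Set (List ι × List ι)} {p q : List ι} (h : Cons T p q) : Cons T q p :=
  fun H _ g hg => (h H g hg).symm

theorem Cons.trans {T : Set (List ι × List ι)} {p q r : List ι} (h : Cons T p q)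
    (h' : Cons T q r) : Cons T p r :=
  fun H _ g hg => (h H g hg).trans (h' H g hg)

theorem Cons.append {T : Set (List ι × List ι)} {p q p' q' : List ι} (h : Cons T p q)
    (h' : Cons T p' q') : Cons T (p ++ p') (q ++ q') := by
  intro H _ g hg
  rw [val_append, val_append, h H g hg, h' H g hg]

theorem Cons.cons {T : Set (List ι × List ι)} (a : ι) {p q : List ι} (h : Cons T p q) :
    Cons T (a :: p) (a :: q) := by
  intro H _ g hg
  rw [val_cons, val_cons, h H g hg]

theorem Cons.of_mem {T : Set (List ι × List ι)} {p q : List ι} (h : (p, q) ∈ T) : Cons T p q :=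
  fun _ _ _ hg => hg _ h

theorem Cons.mono {T T' : Set (List ι × List ι)} (hT : T ⊆ T') {p q : List ι}
    (h : Cons T p q) : Cons T' p q :=
  fun H _ g hg => h H g fun e he => hg e (hT he)

/-- the system `T` has a solution in words all of whose relations follow from `T`, in all
groups -/
def Good (T : Set (List ι × List ι)) : Prop :=
  ∃ (σ : Type) (_ : Countable σ) (h : ι → List σ), (∀ e ∈ T, flat h e.1 = flat h e.2) ∧
    ∀ p q, flat h p = flat h q → Cons T p q

theorem Good.symm {u v : List ι} (h : Good {(u, v)}) : Good {(v, u)} := by
  obtain ⟨σ, hc, h, h1, h2⟩ := h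
  refine ⟨σ, hc, h, ?_, ?_⟩
  · rintro e rfl
    exact (h1 _ rfl).symm
  · intro p q hpq H _ g hg
    refine h2 p q hpq H g ?_
    rintro e rfl
    exact (hg _ rfl).symm

open Classical in
/-- the substitution replacing `α` by `αβ` -/
noncomputable def rep (α β : ι) (z : ι) : List ι := if z = α then [α, β] else [z]

theorem flat_rep_of_notMem (α β : ι) (w : List ι) (h : α ∉ w) : flat (rep α β) w = w := by
  induction w with
  | nil => rfl
  | cons a w ih =>
    have h1 : a ≠ α := fun h' => h (by simp [h'])
    rw [flat_cons, ih (fun h' => h (by simp [h']))]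
    simp [rep, h1]

theorem levi (α β : ι) (hab : α ≠ β) (u v : List ι) (hu : α ∉ u)
    (hg : Good {(u ++ [α], flat (rep α β) v)}) : Good {(u ++ [α], v ++ [β])} := by
  obtain ⟨σ, hc, h, h1, h2⟩ := hg
  have h1' : flat h (u ++ [α]) = flat h (flat (rep α β) v) := h1 _ rfl
  have hα : rep α β α = [α, β] := by simp [rep]
  have hβ : rep α β β = [β] := by simp [rep, hab.symm]
  refine ⟨σ, hc, fun z => flat h (rep α β z), ?_, ?_⟩
  · rintro e rfl
    rw [← flat_flat, ← flat_flat, flat_append, flat_append (rep α β), flat_single, flat_single,
      hα, hβ, flat_rep_of_notMem α β u hu]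
    have h3 : u ++ [α, β] = (u ++ [α]) ++ [β] := by simp
    rw [h3, flat_append h (u ++ [α]), h1', ← flat_append]
  · intro p q hpq
    rw [← flat_flat, ← flat_flat] at hpq
    have h3 := h2 _ _ hpq
    classical
    intro H _ g hg
    have hg' : val g (u ++ [α]) = val g (v ++ [β]) := hg _ rfl
    let g' : ι → H := fun z => if z = α then g α * (g β)⁻¹ else g z
    have h4 : ∀ w, val g' (flat (rep α β) w) = val g w := by
      intro w
      rw [val_flat]
      congr 1
      funext z
      by_cases hz : z = α
      · subst hz
        simp [rep, g', val, hab.symm]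
      · simp [rep, g', val, hz]
    have h5 := h3 H g' (by
      rintro e rfl
      show val g' (u ++ [α]) = val g' (flat (rep α β) v)
      rw [h4, val_append, val_single]
      have h6 : val g' u = val g u := by
        apply val_congr
        intro a ha
        have : a ≠ α := fun h' => hu (h' ▸ ha)
        simp [g', this]
      rw [val_append, val_append, val_single, val_single] at hg'
      rw [h6]
      simp only [g', if_true]
      rw [← mul_assoc, hg', mul_assoc, mul_inv_cancel, mul_one])
    rwa [h4, h4] at h5

theorem base_one [Countable ι] (u : List ι) (β : ι) (hb : β ∉ u) : Good {(u, [β])} := by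
  classical
  let h : ι → List ι := fun z => if z = β then u else [z]
  have hu : ∀ w : List ι, β ∉ w → flat h w = w := by
    intro w
    induction w with
    | nil => intro _; rfl
    | cons a w ih =>
      intro hw
      have h1 : a ≠ β := fun h' => hw (by simp [h'])
      rw [flat_cons, ih (fun h' => hw (by simp [h']))]
      simp [h, h1]
  refine ⟨ι, inferInstance, h, ?_, ?_⟩
  · rintro e rfl
    rw [flat_single, hu u hb]
    simp [h]
  · intro p q hpq H _ g hg
    have hg' : val g u = g β := by
      have := hg _ rfl
      rwa [val_single] at this
    have h4 : ∀ w, val g (flat h w) = val g w := by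
      intro w
      rw [val_flat]
      congr 1
      funext z
      by_cases hz : z = β
      · subst hz
        simp only [h, if_true]
        exact hg'
      · simp [h, val, hz]
    rw [← h4 p, ← h4 q, hpq]

end

end Pool.Agent.H.MP_48f3d1_lc.Lin
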