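import Pool.Agent.H.MP_48f3d1_lc.Lin.Rauzy
import Pool.Agent.H.MP_48f3d1_lc.Main

/-! Combination of generic solutions of systems in disjoint sets of unknowns, and the
decomposition of an equation without repetitions on a side. -/

namespace Pool.Agent.H.MP_48f3d1_lc.Lin

section

variable {ι : Type}

/-- a consequence in groups holds for all solutions in words -/
theorem Cons.words {T : Set (List ι × List ι)} {p q : List ι} (h : Cons T p q) {σ : Type}
    (k : ι → List σ) (hk : ∀ e ∈ T, flat k e.1 = flat k e.2) : flat k p = flat k q := by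
  have hv : ∀ w : List ι, val (fun a => emb σ (FreeMonoid.ofList (k a))) w =
      emb σ (FreeMonoid.ofList (flat k w)) := by
    intro w
    induction w with
    | nil => simp [val_nil, flat_nil]
    | cons a w ih => rw [val_cons, ih, flat_cons, FreeMonoid.ofList_append, map_mul]
  have h1 := h (FreeGroup σ) (fun a => emb σ (FreeMonoid.ofList (k a))) (by
    intro e he
    rw [hv, hv, hk e he])
  rw [hv, hv] at h1
  exact FreeMonoid.ofList.injective (emb_injective σ h1)

/-- the system `T` has a solution in nonempty words all of whose relations follow from `T`, in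
all groups -/
def GoodN (T : Set (List ι × List ι)) : Prop :=
  ∃ (σ : Type) (_ : Countable σ) (h : ι → List σ), (∀ z, h z ≠ []) ∧
    (∀ e ∈ T, flat h e.1 = flat h e.2) ∧ ∀ p q, flat h p = flat h q → Cons T p q

theorem goodN_empty [Countable ι] : GoodN (∅ : Set (List ι × List ι)) := by
  refine ⟨ι, inferInstance, fun z => [z], by simp, by simp, ?_⟩
  intro p q h
  have h1 : ∀ w : List ι, flat (fun z => [z]) w = w := by
    intro w
    induction w with
    | nil => rfl
    | cons a w ih => rw [flat_cons, ih]; rfl
  rw [h1, h1] at h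
  subst h
  exact Cons.refl _

theorem take_flat {σ : Type} (h : ι → List σ) (D : ι → Bool) (L : σ → Bool)
    (h1 : ∀ z, D z = true → ∀ c ∈ h z, L c = true)
    (h2 : ∀ z, D z = false → h z ≠ [] ∧ ∀ c ∈ h z, L c = false) (p : List ι) :
    (flat h p).takeWhile L = flat h (p.takeWhile D) ∧
      (flat h p).dropWhile L = flat h (p.dropWhile D) := by
  induction p with
  | nil => simp [flat_nil]
  | cons z p ih =>
    by_cases hz : D z = true
    · rw [flat_cons, List.takeWhile_append_of_pos (h1 z hz), ih.1,
        List.dropWhile_append_of_pos (h1 z hz), ih.2, List.takeWhile_cons_of_pos hz,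
        List.dropWhile_cons_of_pos hz, flat_cons]
      exact ⟨rfl, rfl⟩
    · have hz' : D z = false := by simpa using hz
      obtain ⟨h3, h4⟩ := h2 z hz'
      obtain ⟨c, s, hs⟩ := List.exists_cons_of_ne_nil h3
      have hc : L c = false := h4 c (by rw [hs]; simp)
      rw [List.takeWhile_cons_of_neg hz, List.dropWhile_cons_of_neg hz, flat_cons, hs,
        List.cons_append, List.takeWhile_cons_of_neg (by simp [hc]),
        List.dropWhile_cons_of_neg (by simp [hc]), flat_nil]
      exact ⟨rfl, rfl⟩

theorem block {σ : Type} (h : ι → List σ) (D : ι → Bool) (L : σ → Bool)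
    (hne : ∀ z, h z ≠ []) (h1 : ∀ z, D z = true → ∀ c ∈ h z, L c = true)
    (h2 : ∀ z, D z = false → ∀ c ∈ h z, L c = false) (T : Set (List ι × List ι))
    (H1 : ∀ p q : List ι, (∀ a ∈ p, D a = true) → (∀ a ∈ q, D a = true) →
      flat h p = flat h q → Cons T p q)
    (H2 : ∀ p q : List ι, (∀ a ∈ p, D a = false) → (∀ a ∈ q, D a = false) →
      flat h p = flat h q → Cons T p q) (N : ℕ) :
    ∀ p q : List ι, p.length = N → flat h p = flat h q → Cons T p q := by
  induction N using Nat.strong_induction_on with
  | _ N ih =>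
    intro p q hN hpq
    cases p with
    | nil =>
      cases q with
      | nil => exact Cons.refl _
      | cons d q =>
        exfalso
        rw [flat_cons, flat_nil] at hpq
        exact hne d (List.append_eq_nil_iff.1 hpq.symm).1
    | cons z p =>
      by_cases hz : D z = true
      · have h3 := take_flat h D L h1 (fun z hz => ⟨hne z, h2 z hz⟩)
        have h4 : flat h ((z :: p).takeWhile D) = flat h (q.takeWhile D) := by
          rw [← (h3 _).1, ← (h3 _).1, hpq]
        have h5 : flat h ((z :: p).dropWhile D) = flat h (q.dropWhile D) := by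
          rw [← (h3 _).2, ← (h3 _).2, hpq]
        have h6 := H1 _ _ (fun a ha => List.mem_takeWhile_imp ha)
          (fun a ha => List.mem_takeWhile_imp ha) h4
        have h7 := ih _ (by
          rw [← hN, List.dropWhile_cons_of_pos hz, List.length_cons]
          exact Nat.lt_succ_of_le (List.length_dropWhile_le _ _)) _ _ rfl h5
        have h8 := h6.append h7
        rwa [List.takeWhile_append_dropWhile, List.takeWhile_append_dropWhile] at h8
      · have hz' : D z = false := by simpa using hz
        have h3 := take_flat h (fun a => !D a) (fun a => !L a)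
          (fun z hz c hc => by
            have := h2 z (by simpa using hz) c hc
            simp [this])
          (fun z hz => ⟨hne z, fun c hc => by
            have := h1 z (by simpa using hz) c hc
            simp [this]⟩)
        have h4 : flat h ((z :: p).takeWhile fun a => !D a) =
            flat h (q.takeWhile fun a => !D a) := by
          rw [← (h3 _).1, ← (h3 _).1, hpq]
        have h5 : flat h ((z :: p).dropWhile fun a => !D a) =
            flat h (q.dropWhile fun a => !D a) := by
          rw [← (h3 _).2, ← (h3 _).2, hpq]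
        have h6 := H2 _ _ (fun a ha => by simpa using List.mem_takeWhile_imp ha)
          (fun a ha => by simpa using List.mem_takeWhile_imp ha) h4
        have h7 := ih _ (by
          rw [← hN, List.dropWhile_cons_of_pos (by simp [hz']), List.length_cons]
          exact Nat.lt_succ_of_le (List.length_dropWhile_le _ _)) _ _ rfl h5
        have h8 := h6.append h7
        rwa [List.takeWhile_append_dropWhile, List.takeWhile_append_dropWhile] at h8

theorem flat_map {σ τ : Type} (k : ι → List σ) (f : σ → τ) (w : List ι) :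
    flat (fun z => (k z).map f) w = (flat k w).map f := by
  induction w with
  | nil => rfl
  | cons a w ih => rw [flat_cons, ih, flat_cons, List.map_append]

theorem flat_congr {σ : Type} (k k' : ι → List σ) (w : List ι) (h : ∀ a ∈ w, k a = k' a) :
    flat k w = flat k' w := by
  induction w with
  | nil => rfl
  | cons a w ih =>
    rw [flat_cons, flat_cons, h a (by simp), ih fun b hb => h b (by simp [hb])]

theorem comb {T1 T2 : Set (List ι × List ι)} (D : Set ι)
    (hT1 : ∀ e ∈ T1, ∀ a, a ∈ e.1 ∨ a ∈ e.2 → a ∈ D)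
    (hT2 : ∀ e ∈ T2, ∀ a, a ∈ e.1 ∨ a ∈ e.2 → a ∉ D) (h1 : GoodN T1) (h2 : GoodN T2) :
    GoodN (T1 ∪ T2) := by
  classical
  obtain ⟨σ1, hc1, k1, ha1, hb1, hd1⟩ := h1
  obtain ⟨σ2, hc2, k2, ha2, hb2, hd2⟩ := h2
  let k : ι → List (σ1 ⊕ σ2) := fun z =>
    if z ∈ D then (k1 z).map Sum.inl else (k2 z).map Sum.inr
  have e1 : ∀ w : List ι, (∀ a ∈ w, a ∈ D) → flat k w = (flat k1 w).map Sum.inl := by
    intro w hw
    rw [← flat_map]
    apply flat_congr
    intro a ha
    simp [k, hw a ha]
  have e2 : ∀ w : List ι, (∀ a ∈ w, a ∉ D) → flat k w = (flat k2 w).map Sum.inr := by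
    intro w hw
    rw [← flat_map]
    apply flat_congr
    intro a ha
    simp [k, hw a ha]
  have hne : ∀ z, k z ≠ [] := by
    intro z
    by_cases hz : z ∈ D
    · simp [k, hz, ha1 z]
    · simp [k, hz, ha2 z]
  refine ⟨σ1 ⊕ σ2, inferInstance, k, hne, ?_, ?_⟩
  · rintro e (he | he)
    · rw [e1 _ fun a ha => hT1 e he a (Or.inl ha), e1 _ fun a ha => hT1 e he a (Or.inr ha),
        hb1 e he]
    · rw [e2 _ fun a ha => hT2 e he a (Or.inl ha), e2 _ fun a ha => hT2 e he a (Or.inr ha),
        hb2 e he]
  · intro p q hpq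
    refine block k (fun z => decide (z ∈ D)) Sum.isLeft hne ?_ ?_ (T1 ∪ T2) ?_ ?_ _ p q rfl hpq
    · intro z hz c hc
      have hz' : z ∈ D := by simpa using hz
      simp only [k, hz', if_true, List.mem_map] at hc
      obtain ⟨b, -, rfl⟩ := hc
      rfl
    · intro z hz c hc
      have hz' : z ∉ D := by simpa using hz
      simp only [k, hz', if_false, List.mem_map] at hc
      obtain ⟨b, -, rfl⟩ := hc
      rfl
    · intro p q hp hq h
      rw [e1 p (fun a ha => by simpa using hp a ha), e1 q (fun a ha => by simpa using hq a ha)]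
        at h
      exact (hd1 p q (List.map_injective_iff.2 Sum.inl_injective h)).mono
        (Set.subset_union_left)
    · intro p q hp hq h
      rw [e2 p (fun a ha => by simpa using hp a ha), e2 q (fun a ha => by simpa using hq a ha)]
        at h
      exact (hd2 p q (List.map_injective_iff.2 Sum.inr_injective h)).mono
        (Set.subset_union_right)

theorem flat_length_perm {σ : Type} (k : ι → List σ) {u v : List ι} (h : u.Perm v) :
    (flat k u).length = (flat k v).length :=
  (List.Perm.flatMap_right k h).length_eq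

theorem flat_off {σ : Type} (k : ι → List σ) (w : List ι) (h : ∀ a ∈ w, k a = []) :
    flat k w = [] := by
  induction w with
  | nil => rfl
  | cons a w ih => rw [flat_cons, h a (by simp), ih fun b hb => h b (by simp [hb])]; rfl

theorem flat_one {σ : Type} (k : ι → List σ) (w : List ι) (hw : w.Nodup) (z : ι) (hz : z ∈ w)
    (h : ∀ a ∈ w, a ≠ z → k a = []) : flat k w = k z := by
  obtain ⟨w1, w2, rfl⟩ := List.append_of_mem hz
  have h1 := notMem_of_nodup hw
  rw [flat_append, flat_cons, flat_off k w1, flat_off k w2]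
  · simp
  · intro a ha
    exact h a (by simp [ha]) fun h' => h1.2 (h' ▸ ha)
  · intro a ha
    exact h a (by simp [ha]) fun h' => h1.1 (h' ▸ ha)

/-- solutions with only one nonempty value on each side -/
theorem witness {σ : Type} (c : List σ) {u v : List ι} (hu : u.Nodup) (hv : v.Nodup) {z : ι}
    (hz : z ∈ u ↔ z ∈ v) :
    ∃ k : ι → List σ, flat k u = flat k v ∧ k z = c ∧ ∀ a, a ≠ z → k a = [] := by
  classical
  let k : ι → List σ := fun a => if a = z then c else []
  refine ⟨k, ?_, by simp [k], fun a ha => by simp [k, ha]⟩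
  by_cases h1 : z ∈ u
  · rw [flat_one k u hu z h1 fun a _ ha => by simp [k, ha],
      flat_one k v hv z (hz.1 h1) fun a _ ha => by simp [k, ha]]
  · have h2 : z ∉ v := fun h => h1 (hz.2 h)
    rw [flat_off k u, flat_off k v]
    · intro a ha
      have : a ≠ z := fun h => h2 (h ▸ ha)
      simp [k, this]
    · intro a ha
      have : a ≠ z := fun h => h1 (h ▸ ha)
      simp [k, this]

/-- solutions with only two nonempty values, for unknowns which occur on one side only -/
theorem witness2 {σ : Type} (c : List σ) {u v : List ι} (hu : u.Nodup) (hv : v.Nodup) {z q : ι}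
    (hz : z ∈ u) (hz' : z ∉ v) (hq : q ∈ v) (hq' : q ∉ u) :
    ∃ k : ι → List σ, flat k u = flat k v ∧ k z = c ∧ k q = c ∧
      ∀ a, a ≠ z → a ≠ q → k a = [] := by
  classical
  let k : ι → List σ := fun a => if a = z ∨ a = q then c else []
  refine ⟨k, ?_, by simp [k], by simp [k], fun a ha hb => by simp [k, ha, hb]⟩
  rw [flat_one k u hu z hz, flat_one k v hv q hq]
  · simp [k]
  · intro a ha hb
    have : a ≠ z := fun h => hz' (h ▸ ha)
    simp [k, this, hb]
  · intro a ha hb
    have : a ≠ q := fun h => hq' (h ▸ ha)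
    simp [k, this, hb]

theorem witness_ne {u v : List ι} (hu : u.Nodup) (hv : v.Nodup) (huv : u ⊆ v ↔ v ⊆ u) (z : ι) :
    ∃ k : ι → List Unit, flat k u = flat k v ∧ k z ≠ [] := by
  by_cases h1 : z ∈ u
  · by_cases h2 : z ∈ v
    · obtain ⟨k, h3, h4, -⟩ := witness [()] hu hv (iff_of_true h1 h2)
      exact ⟨k, h3, by simp [h4]⟩
    · have h3 : ¬ v ⊆ u := fun h => h2 (huv.2 h h1)
      obtain ⟨q, hq, hq'⟩ : ∃ q, q ∈ v ∧ q ∉ u := by
        by_contra hcon
        push Not at hcon
        exact h3 hcon
      obtain ⟨k, h4, h5, -⟩ := witness2 [()] hu hv h1 h2 hq hq'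
      exact ⟨k, h4, by simp [h5]⟩
  · by_cases h2 : z ∈ v
    · have h3 : ¬ u ⊆ v := fun h => h1 (huv.1 h h2)
      obtain ⟨q, hq, hq'⟩ : ∃ q, q ∈ u ∧ q ∉ v := by
        by_contra hcon
        push Not at hcon
        exact h3 hcon
      obtain ⟨k, h4, h5, -⟩ := witness2 [()] hv hu h2 h1 hq hq'
      exact ⟨k, h4.symm, by simp [h5]⟩
    · obtain ⟨k, h3, h4, -⟩ := witness [()] hu hv (iff_of_false h1 h2)
      exact ⟨k, h3, by simp [h4]⟩

theorem Good.toN {u v : List ι} (h : Good {(u, v)}) (hu : u.Nodup) (hv : v.Nodup)
    (huv : u ⊆ v ↔ v ⊆ u) : GoodN {(u, v)} := by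
  obtain ⟨σ, hc, k, h1, h2⟩ := h
  refine ⟨σ, hc, k, ?_, h1, h2⟩
  intro z hz
  obtain ⟨g, h3, h4⟩ := witness_ne hu hv huv z
  apply h4
  have h5 : flat k [z] = flat k [] := by rw [flat_single, hz, flat_nil]
  have h6 := (h2 _ _ h5).words g (by
    rintro e rfl
    exact h3)
  rwa [flat_single, flat_nil] at h6

end

end Pool.Agent.H.MP_48f3d1_lc.Lin
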