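import Pool.Agent.H.MP_48f3d1_lc.Lin.Comb

/-! Decomposition of an equation without repetitions on a side into irreducible ones. -/

namespace Pool.Agent.H.MP_48f3d1_lc.Lin

section

variable {ι : Type}

/-- no factors of the form `PQR`, `RQP` at balanced positions -/
def NoC (u v : List ι) : Prop :=
  ∀ l m r l' m' r' : List ι, u = l ++ m ++ r → v = l' ++ m' ++ r' →
    (l.Perm l' ∨ r.Perm r') → ¬ Cform m m'

theorem perm_cancel_right {a b c d : List ι} (h : (a ++ b).Perm (c ++ d)) (h' : b.Perm d) :
    a.Perm c :=
  (List.perm_append_right_iff d).1 ((List.Perm.append_left a h'.symm).trans h)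

theorem perm_cancel_left {a b c d : List ι} (h : (a ++ b).Perm (c ++ d)) (h' : a.Perm c) :
    b.Perm d :=
  (List.perm_append_left_iff c).1 ((List.Perm.append_right b h'.symm).trans h)

theorem NoC.left {l r l' r' : List ι} (h : NoC (l ++ r) (l' ++ r'))
    (hb : l.Perm l' ∨ r.Perm r') : NoC l l' := by
  intro a m b a' m' b' h1 h2 h3 h4
  refine h a m (b ++ r) a' m' (b' ++ r') (by rw [h1]; simp) (by rw [h2]; simp) ?_ h4
  rcases h3 with h3 | h3
  · exact Or.inl h3
  · rcases hb with hb | hb
    · left
      rw [h1, h2, List.append_assoc, List.append_assoc] at hb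
      exact perm_cancel_right hb (h4.perm.append h3)
    · exact Or.inr (h3.append hb)

theorem NoC.right {l r l' r' : List ι} (h : NoC (l ++ r) (l' ++ r'))
    (hb : l.Perm l' ∨ r.Perm r') : NoC r r' := by
  intro a m b a' m' b' h1 h2 h3 h4
  refine h (l ++ a) m b (l' ++ a') m' b' (by rw [h1]; simp) (by rw [h2]; simp) ?_ h4
  rcases h3 with h3 | h3
  · rcases hb with hb | hb
    · exact Or.inl (hb.append h3)
    · right
      rw [h1, h2] at hb
      exact perm_cancel_left hb (h3.append h4.perm)
  · exact Or.inr h3

theorem disj {l r l' r' : List ι} (hu : (l ++ r).Nodup) (hv : (l' ++ r').Nodup)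
    (hb : l.Perm l' ∨ r.Perm r') (a : ι) (ha : a ∈ r ∨ a ∈ r') : ¬ (a ∈ l ∨ a ∈ l') := by
  have h1 : a ∈ r → a ∉ l := fun h h' => (List.nodup_append.1 hu).2.2 a h' a h rfl
  have h2 : a ∈ r' → a ∉ l' := fun h h' => (List.nodup_append.1 hv).2.2 a h' a h rfl
  rcases hb with hb | hb
  · have := hb.mem_iff (a := a)
    tauto
  · have := hb.mem_iff (a := a)
    tauto

theorem bal_parts {l r l' r' : List ι} (hu : (l ++ r).Nodup) (hv : (l' ++ r').Nodup)
    (h : l ++ r ⊆ l' ++ r' ↔ l' ++ r' ⊆ l ++ r) (hb : l.Perm l' ∨ r.Perm r') :
    (l ⊆ l' ↔ l' ⊆ l) ∧ (r ⊆ r' ↔ r' ⊆ r) := by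
  have hd := disj hu hv hb
  rcases hb with hb | hb
  · refine ⟨iff_of_true (fun a ha => hb.mem_iff.1 ha) (fun a ha => hb.mem_iff.2 ha), ?_⟩
    constructor
    · intro h1 a ha
      have h2 : l ++ r ⊆ l' ++ r' := by
        intro b hb'
        rcases List.mem_append.1 hb' with h3 | h3
        · exact List.mem_append_left _ (hb.mem_iff.1 h3)
        · exact List.mem_append_right _ (h1 h3)
      rcases List.mem_append.1 (h.1 h2 (List.mem_append_right _ ha)) with h3 | h3
      · exact absurd (Or.inl h3) (hd a (Or.inr ha))
      · exact h3
    · intro h1 a ha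
      have h2 : l' ++ r' ⊆ l ++ r := by
        intro b hb'
        rcases List.mem_append.1 hb' with h3 | h3
        · exact List.mem_append_left _ (hb.mem_iff.2 h3)
        · exact List.mem_append_right _ (h1 h3)
      rcases List.mem_append.1 (h.2 h2 (List.mem_append_right _ ha)) with h3 | h3
      · exact absurd (Or.inr h3) (hd a (Or.inl ha))
      · exact h3
  · refine ⟨?_, iff_of_true (fun a ha => hb.mem_iff.1 ha) (fun a ha => hb.mem_iff.2 ha)⟩
    constructor
    · intro h1 a ha
      have h2 : l ++ r ⊆ l' ++ r' := by
        intro b hb'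
        rcases List.mem_append.1 hb' with h3 | h3
        · exact List.mem_append_left _ (h1 h3)
        · exact List.mem_append_right _ (hb.mem_iff.1 h3)
      rcases List.mem_append.1 (h.1 h2 (List.mem_append_left _ ha)) with h3 | h3
      · exact h3
      · exact absurd (Or.inr ha) (hd a (Or.inl h3))
    · intro h1 a ha
      have h2 : l' ++ r' ⊆ l ++ r := by
        intro b hb'
        rcases List.mem_append.1 hb' with h3 | h3
        · exact List.mem_append_left _ (h1 h3)
        · exact List.mem_append_right _ (hb.mem_iff.2 h3)
      rcases List.mem_append.1 (h.2 h2 (List.mem_append_left _ ha)) with h3 | h3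
      · exact h3
      · exact absurd (Or.inl ha) (hd a (Or.inr h3))

/-- decomposition into parts with generic solutions -/
theorem decomp [Countable ι] (N : ℕ) : ∀ u v : List ι, u.length + v.length = N → u.Nodup →
    v.Nodup → (u ⊆ v ↔ v ⊆ u) → NoC u v →
    ∃ T : Set (List ι × List ι), GoodN T ∧
      (∀ e ∈ T, ∀ a, a ∈ e.1 ∨ a ∈ e.2 → a ∈ u ∨ a ∈ v) ∧
      ∀ (σ : Type) (k : ι → List σ), flat k u = flat k v ↔ ∀ e ∈ T, flat k e.1 = flat k e.2 := by
  induction N using Nat.strong_induction_on with
  | _ N ih =>
    intro u v hN hu hv huv hC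
    by_cases hdec : ∃ l r l' r', u = l ++ r ∧ v = l' ++ r' ∧ (l.Perm l' ∨ r.Perm r') ∧
        l.length + l'.length < N ∧ r.length + r'.length < N
    · obtain ⟨l, r, l', r', rfl, rfl, hb, h1, h2⟩ := hdec
      have hbp := bal_parts hu hv huv hb
      obtain ⟨T1, hT1, hL1, hE1⟩ := ih _ h1 l l' rfl (List.nodup_append.1 hu).1
        (List.nodup_append.1 hv).1 hbp.1 (hC.left hb)
      obtain ⟨T2, hT2, hL2, hE2⟩ := ih _ h2 r r' rfl (List.nodup_append.1 hu).2.1
        (List.nodup_append.1 hv).2.1 hbp.2 (hC.right hb)
      refine ⟨T1 ∪ T2, comb {a | a ∈ l ∨ a ∈ l'} hL1 ?_ hT1 hT2, ?_, ?_⟩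
      · intro e he a ha
        exact disj hu hv hb a (hL2 e he a ha)
      · rintro e (he | he) a ha
        · rcases hL1 e he a ha with h3 | h3
          · exact Or.inl (List.mem_append_left _ h3)
          · exact Or.inr (List.mem_append_left _ h3)
        · rcases hL2 e he a ha with h3 | h3
          · exact Or.inl (List.mem_append_right _ h3)
          · exact Or.inr (List.mem_append_right _ h3)
      · intro σ k
        have h3 : (flat k (l ++ r) = flat k (l' ++ r')) ↔
            (flat k l = flat k l' ∧ flat k r = flat k r') := by
          rw [flat_append, flat_append]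
          constructor
          · intro h4
            rcases hb with hb | hb
            · exact List.append_inj h4 (flat_length_perm k hb)
            · exact List.append_inj' h4 (flat_length_perm k hb)
          · rintro ⟨h4, h5⟩
            rw [h4, h5]
        rw [h3, hE1, hE2]
        constructor
        · rintro ⟨h4, h5⟩ e (he | he)
          · exact h4 e he
          · exact h5 e he
        · intro h4
          exact ⟨fun e he => h4 e (Or.inl he), fun e he => h4 e (Or.inr he)⟩
    · have hI : Irr u v := by
        refine ⟨hu, hv, huv, ?_, ?_⟩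
        · intro l r l' r' h1 h2 h3
          by_contra hcon
          push Not at hcon
          obtain ⟨h4, h5⟩ := hcon
          apply hdec
          refine ⟨l, r, l', r', h1, h2, Or.inl h3, ?_, ?_⟩
          · rw [← hN, h1, h2, List.length_append, List.length_append]
            by_cases hr : r = []
            · have := List.length_pos_iff.2 (h5 hr)
              omega
            · have := List.length_pos_iff.2 hr
              omega
          · rw [← hN, h1, h2, List.length_append, List.length_append]
            have := List.length_pos_iff.2 h4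
            omega
        · intro l r l' r' h1 h2 h3
          by_contra hcon
          push Not at hcon
          obtain ⟨h4, h5⟩ := hcon
          apply hdec
          refine ⟨l, r, l', r', h1, h2, Or.inr h3, ?_, ?_⟩
          · rw [← hN, h1, h2, List.length_append, List.length_append]
            have := List.length_pos_iff.2 h4
            omega
          · rw [← hN, h1, h2, List.length_append, List.length_append]
            by_cases hr : l = []
            · have := List.length_pos_iff.2 (h5 hr)
              omega
            · have := List.length_pos_iff.2 hr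
              omega
      have triv : u = v → ∃ T : Set (List ι × List ι), GoodN T ∧
          (∀ e ∈ T, ∀ a, a ∈ e.1 ∨ a ∈ e.2 → a ∈ u ∨ a ∈ v) ∧
          ∀ (σ : Type) (k : ι → List σ),
            flat k u = flat k v ↔ ∀ e ∈ T, flat k e.1 = flat k e.2 := by
        intro h
        refine ⟨∅, goodN_empty, by simp, ?_⟩
        intro σ k
        simp [h]
      have one : Good {(u, v)} → ∃ T : Set (List ι × List ι), GoodN T ∧
          (∀ e ∈ T, ∀ a, a ∈ e.1 ∨ a ∈ e.2 → a ∈ u ∨ a ∈ v) ∧
          ∀ (σ : Type) (k : ι → List σ),
            flat k u = flat k v ↔ ∀ e ∈ T, flat k e.1 = flat k e.2 := by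
        intro h
        refine ⟨{(u, v)}, h.toN hu hv huv, ?_, ?_⟩
        · rintro e rfl a ha
          exact ha
        · intro σ k
          simp
      by_cases hsub : u ⊆ v
      · have hp : u.Perm v := perm_of_subset hu hv hsub (huv.1 hsub)
        rcases List.eq_nil_or_concat u with h5 | ⟨u', α, h5⟩
        · apply triv
          rw [h5] at hp ⊢
          exact hp.symm.eq_nil.symm
        · rw [List.concat_eq_append] at h5
          subst h5
          obtain ⟨v1, v2, rfl⟩ := List.append_of_mem (hsub (by simp : α ∈ u' ++ [α]))
          by_cases hu' : u' = []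
          · subst hu'
            apply triv
            have h6 := hp.length_eq
            simp only [List.nil_append, List.length_append, List.length_cons,
              List.length_nil] at h6
            have h7 : v1 = [] := List.length_eq_zero_iff.1 (by omega)
            have h8 : v2 = [] := List.length_eq_zero_iff.1 (by omega)
            rw [h7, h8]
          · rcases bal_GC _ v1 v2 u' α rfl hI hp hu' with h6 | h6
            · exact one h6
            · exfalso
              exact hC [] _ [] [] _ [] (by simp) (by simp) (Or.inl (List.Perm.refl _))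
                h6
      · exact one (unbal _ u v rfl hI hsub)

end

end Pool.Agent.H.MP_48f3d1_lc.Lin
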