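import Pool.Agent.H.MP_48f3d1_lc.Lin.Std

/-! Equations without repetitions on a side: every irreducible one has a generic solution,
unless it is of the form `PQR = RQP`. -/

namespace Pool.Agent.H.MP_48f3d1_lc.Lin

section

variable {ι : Type}

/-- the equation `u = v` is of the form `PQR = RQP` with nonempty `P`, `R` -/
def Cform (u v : List ι) : Prop :=
  ∃ P Q R : List ι, u = P ++ Q ++ R ∧ v = R ++ Q ++ P ∧ P ≠ [] ∧ R ≠ []

theorem Cform.symm {u v : List ι} (h : Cform u v) : Cform v u := by
  obtain ⟨P, Q, R, h1, h2, h3, h4⟩ := h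
  exact ⟨R, Q, P, h2, h1, h4, h3⟩

theorem Cform.perm {u v : List ι} (h : Cform u v) : u.Perm v := by
  obtain ⟨P, Q, R, rfl, rfl, h3, h4⟩ := h
  exact (List.perm_append_comm.trans (List.Perm.append_left R List.perm_append_comm)).trans
    (by rw [List.append_assoc])

/-- a generic solution, or the exceptional form -/
def GC (u v : List ι) : Prop := Good {(u, v)} ∨ Cform u v

theorem GC.symm {u v : List ι} (h : GC u v) : GC v u :=
  h.imp Good.symm Cform.symm

theorem flat_rep_mem (α β : ι) (v w : List ι) (hv : α ∉ v) (hw : α ∉ w) :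
    flat (rep α β) (v ++ α :: w) = v ++ α :: β :: w := by
  rw [flat_append, flat_cons, flat_rep_of_notMem α β v hv, flat_rep_of_notMem α β w hw]
  simp [rep]

/-- one elementary transformation -/
theorem GC.step {u v w : List ι} {α β : ι} (hab : α ≠ β) (hu : α ∉ u) (hv : α ∉ v) (hw : α ∉ w)
    (h : GC (u ++ [α]) (v ++ α :: β :: w)) : GC (u ++ [α]) (v ++ α :: (w ++ [β])) := by
  rcases h with h | h
  · left
    have h1 : v ++ α :: (w ++ [β]) = (v ++ α :: w) ++ [β] := by simp
    rw [h1]
    apply levi α β hab u _ hu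
    rw [flat_rep_mem α β v w hv hw]
    exact h
  · right
    obtain ⟨P, Q, R, h1, h2, h3, h4⟩ := h
    obtain ⟨R', c, rfl⟩ : ∃ R' c, R = R' ++ [c] := by
      rcases List.eq_nil_or_concat R with h5 | ⟨R', c, h5⟩
      · exact absurd h5 h4
      · exact ⟨R', c, by rw [h5, List.concat_eq_append]⟩
    have h6 : u = P ++ Q ++ R' ∧ α = c := by
      have h7 : u ++ [α] = (P ++ Q ++ R') ++ [c] := by rw [h1]; simp
      have := List.append_inj' h7 rfl
      exact ⟨this.1, by simpa using this.2⟩
    obtain ⟨h7, rfl⟩ := h6
    have hR : α ∉ R' := fun h8 => hu (by rw [h7]; simp [h8])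
    have h9 : v ++ α :: β :: w = R' ++ α :: (Q ++ P) := by rw [h2]; simp
    have hQP : α ∉ Q ++ P := by
      intro h8
      apply hu
      rw [h7]
      simp only [List.mem_append] at h8 ⊢
      tauto
    obtain ⟨rfl, -, h10⟩ := (List.append_cons_inj_of_notMem hR hQP).1 h9.symm
    cases Q with
    | nil =>
      rw [List.nil_append] at h10
      subst h10
      refine ⟨[β], w, R' ++ [α], ?_, ?_, by simp, h4⟩
      · rw [h1]; simp
      · simp
    | cons b Q =>
      rw [List.cons_append, List.cons.injEq] at h10
      obtain ⟨rfl, rfl⟩ := h10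
      refine ⟨P ++ [b], Q, R' ++ [α], ?_, ?_, by simp, h4⟩
      · rw [h1]; simp
      · simp

/-- rotation of the part of the right hand side after the last letter of the left hand side -/
theorem GC.rot {u v : List ι} {α : ι} (hu : α ∉ u) (hv : α ∉ v) (w2 : List ι) :
    ∀ w1 : List ι, α ∉ w1 → α ∉ w2 → GC (u ++ [α]) (v ++ α :: (w2 ++ w1)) →
      GC (u ++ [α]) (v ++ α :: (w1 ++ w2)) := by
  induction w2 using List.reverseRecOn with
  | nil =>
    intro w1 _ _ h
    simpa using h
  | append_singleton w2 β ih =>
    intro w1 h1 h2 h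
    have hb : α ≠ β := fun h' => h2 (by simp [h'])
    have h2' : α ∉ w2 := fun h' => h2 (by simp [h'])
    have h3 := ih (β :: w1) (by simp [hb, h1]) h2' (by simpa using h)
    have h4 := GC.step hb hu hv (w := w1 ++ w2) (by simp [h1, h2']) (by simpa using h3)
    simpa using h4

/-- irreducible equations -/
structure Irr (u v : List ι) : Prop where
  nu : u.Nodup
  nv : v.Nodup
  bal : u ⊆ v ↔ v ⊆ u
  pre : ∀ l r l' r', u = l ++ r → v = l' ++ r' → l.Perm l' → l = [] ∨ (r = [] ∧ r' = [])
  suf : ∀ l r l' r', u = l ++ r → v = l' ++ r' → r.Perm r' → r = [] ∨ (l = [] ∧ l' = [])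

theorem Irr.symm {u v : List ι} (h : Irr u v) : Irr v u where
  nu := h.nv
  nv := h.nu
  bal := h.bal.symm
  pre := by
    intro l r l' r' h1 h2 h3
    rcases h.pre l' r' l r h2 h1 h3.symm with h4 | h4
    · left
      subst h4
      exact h3.eq_nil
    · exact Or.inr ⟨h4.2, h4.1⟩
  suf := by
    intro l r l' r' h1 h2 h3
    rcases h.suf l' r' l r h2 h1 h3.symm with h4 | h4
    · left
      subst h4
      exact h3.eq_nil
    · exact Or.inr ⟨h4.2, h4.1⟩

theorem perm_of_subset {u v : List ι} (hu : u.Nodup) (hv : v.Nodup) (h1 : u ⊆ v) (h2 : v ⊆ u) :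
    u.Perm v :=
  (List.perm_ext_iff_of_nodup hu hv).2 fun _ => ⟨fun h => h1 h, fun h => h2 h⟩

/-- a suffix of a word which ends with `α` is empty or contains `α` -/
theorem suffix_last {u l r : List ι} {α : ι} (h : u ++ [α] = l ++ r) :
    r = [] ∨ ∃ r', r = r' ++ [α] ∧ u = l ++ r' := by
  rcases List.eq_nil_or_concat r with h5 | ⟨r', c, h5⟩
  · exact Or.inl h5
  · right
    rw [List.concat_eq_append] at h5
    subst h5
    have h7 : u ++ [α] = (l ++ r') ++ [c] := by rw [h]; simp
    have := List.append_inj' h7 rfl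
    obtain rfl : α = c := by simpa using this.2
    exact ⟨r', rfl, this.1⟩

/-- a prefix which contains the last letter is everything -/
theorem prefix_last {u l r : List ι} {α : ι} (hu : α ∉ u) (h : u ++ [α] = l ++ r) (hl : α ∈ l) :
    r = [] := by
  rcases suffix_last h with h1 | ⟨r', -, h2⟩
  · exact h1
  · exact absurd (by rw [h2]; simp [hl]) hu

theorem Irr.rot {u v w1 w2 : List ι} {α : ι} (h : Irr (u ++ [α]) (v ++ α :: (w1 ++ w2))) :
    Irr (u ++ [α]) (v ++ α :: (w2 ++ w1)) := by
  have hp : (v ++ α :: (w1 ++ w2)).Perm (v ++ α :: (w2 ++ w1)) :=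
    List.Perm.append_left v (List.Perm.cons α List.perm_append_comm)
  have hu : α ∉ u := by
    have := h.nu
    rw [List.nodup_append] at this
    exact fun h' => this.2.2 α h' α (by simp) rfl
  refine ⟨h.nu, hp.nodup_iff.1 h.nv, ?_, ?_, ?_⟩
  · have h1 : ∀ a, a ∈ v ++ α :: (w2 ++ w1) ↔ a ∈ v ++ α :: (w1 ++ w2) := fun a =>
      hp.mem_iff.symm
    constructor
    · intro h2 a ha
      exact h.bal.1 (fun b hb => (h1 b).1 (h2 hb)) ((h1 a).1 ha)
    · intro h2 a ha
      exact (h1 a).2 (h.bal.2 (fun b hb => h2 ((h1 b).2 hb)) ha)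
  · intro l r l' r' h1 h2 h3
    by_cases hα : α ∈ l'
    · right
      have hr : r = [] := prefix_last hu h1 (h3.mem_iff.2 hα)
      refine ⟨hr, ?_⟩
      subst hr
      rw [List.append_nil] at h1
      subst h1
      have h4 : u ++ [α] ⊆ v ++ α :: (w1 ++ w2) := by
        intro a ha
        rw [hp.mem_iff, h2]
        exact List.mem_append_left _ (h3.mem_iff.1 ha)
      have h5 := perm_of_subset h.nu h.nv h4 (h.bal.1 h4)
      have h6 := (h5.trans hp).length_eq
      have h7 := h3.length_eq
      rw [h2, List.length_append (as := l')] at h6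
      exact List.length_eq_zero_iff.1 (by omega)
    · left
      rcases List.append_eq_append_iff.1 h2 with ⟨as, h4, h5⟩ | ⟨bs, h4, h5⟩
      · cases as with
        | nil =>
          rw [List.append_nil] at h4
          subst h4
          rcases h.pre l r l' (α :: (w1 ++ w2)) h1 rfl h3 with h6 | h6
          · exact h6
          · simp at h6
        | cons c as =>
          exfalso
          rw [List.cons_append, List.cons.injEq] at h5
          apply hα
          rw [h4, h5.1]
          simp
      · rcases h.pre l r l' (bs ++ α :: (w1 ++ w2)) h1 (by rw [h4]; simp) h3 with h6 | h6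
        · exact h6
        · simp at h6
  · intro l r l' r' h1 h2 h3
    rcases suffix_last h1 with h4 | ⟨r1, h4, h5⟩
    · exact Or.inl h4
    · right
      have hα : α ∈ r' := h3.mem_iff.1 (by rw [h4]; simp)
      rcases List.append_eq_append_iff.1 h2 with ⟨as, h6, h7⟩ | ⟨bs, h6, h7⟩
      · cases as with
        | nil =>
          rw [List.append_nil] at h6
          rw [List.nil_append] at h7
          subst h6
          have h8 : r.Perm (α :: (w1 ++ w2)) := by
            rw [← h7] at h3
            exact h3.trans (List.Perm.cons α List.perm_append_comm)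
          rcases h.suf l r l' (α :: (w1 ++ w2)) h1 rfl h8 with h9 | h9
          · exact absurd h9 (by rw [h4]; simp)
          · exact h9
        | cons c as =>
          exfalso
          rw [List.cons_append, List.cons.injEq] at h7
          have hnd := hp.nodup_iff.1 h.nv
          rw [h2, h6, List.nodup_append] at hnd
          exact hnd.2.2 α (by rw [h7.1]; simp) α hα rfl
      · have h8 : r.Perm (bs ++ α :: (w1 ++ w2)) := by
          rw [h7] at h3
          exact h3.trans (List.Perm.append_left bs (List.Perm.cons α List.perm_append_comm))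
        rcases h.suf l r l' (bs ++ α :: (w1 ++ w2)) h1 (by rw [h6]; simp) h8 with h9 | h9
        · exact absurd h9 (by rw [h4]; simp)
        · exact h9

/-- a set of letters which is closed under going to the right is a suffix -/
theorem closed_suffix (K : List ι) (hK : K.Nodup) (u : List ι) (hu : u.Nodup) (hs : K ⊆ u)
    (hc : ∀ u1 u2 : List ι, ∀ β δ, u = u1 ++ β :: u2 → β ∈ K → δ ∈ u2 → δ ∈ K) :
    ∃ l r, u = l ++ r ∧ r.Perm K := by
  induction u with
  | nil => exact ⟨[], [], rfl, perm_of_subset hu hK (by simp) hs⟩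
  | cons c u ih =>
    by_cases hcK : c ∈ K
    · refine ⟨[], c :: u, rfl, perm_of_subset hu hK ?_ hs⟩
      intro a ha
      rcases List.mem_cons.1 ha with rfl | ha
      · exact hcK
      · exact hc [] u c a rfl hcK ha
    · have h1 : K ⊆ u := by
        intro a ha
        rcases List.mem_cons.1 (hs ha) with rfl | h2
        · exact absurd ha hcK
        · exact h2
      obtain ⟨l, r, h2, h3⟩ := ih (List.nodup_cons.1 hu).2 h1 (by
        intro u1 u2 β δ h4 h5 h6
        exact hc (c :: u1) u2 β δ (by rw [h4]; rfl) h5 h6)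
      exact ⟨c :: l, r, by rw [h2]; rfl, h3⟩

theorem notMem_of_nodup {u v : List ι} {α : ι} (h : (u ++ α :: v).Nodup) : α ∉ u ∧ α ∉ v := by
  rw [List.nodup_append] at h
  exact ⟨fun h' => h.2.2 α h' α (by simp) rfl, (List.nodup_cons.1 h.2.1).1⟩

/-- two rotations which bring a letter `δ` to the end of the left hand side -/
theorem Irr.reduce {u' v1 v2 : List ι} {α : ι} (h : Irr (u' ++ [α]) (v1 ++ α :: v2)) {β δ : ι}
    (hβ : β ∈ v2) {u1 u2 : List ι} (hu : u' ++ [α] = u1 ++ β :: u2) (hδ : δ ∈ u2) :
    ∃ a b, Irr (a ++ [δ]) (v1 ++ α :: b) ∧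
      (GC (a ++ [δ]) (v1 ++ α :: b) → GC (u' ++ [α]) (v1 ++ α :: v2)) ∧
      (a ++ [δ]).Perm (u' ++ [α]) ∧ b.Perm v2 ∧ a ≠ [] := by
  obtain ⟨w1, w2, rfl⟩ := List.append_of_mem hβ
  obtain ⟨s1, s2, rfl⟩ := List.append_of_mem hδ
  have e1 : v1 ++ α :: (w1 ++ β :: w2) = v1 ++ α :: ((w1 ++ [β]) ++ w2) := by simp
  have e2 : u1 ++ β :: (s1 ++ δ :: s2) = u1 ++ β :: ((s1 ++ [δ]) ++ s2) := by simp
  have e3 : v1 ++ α :: (w2 ++ (w1 ++ [β])) = (v1 ++ α :: (w2 ++ w1)) ++ [β] := by simp
  have e4 : u1 ++ β :: (s2 ++ (s1 ++ [δ])) = (u1 ++ β :: (s2 ++ s1)) ++ [δ] := by simp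
  have hα := notMem_of_nodup h.nv
  have hαu := notMem_of_nodup h.nu
  have hβu := notMem_of_nodup (hu ▸ h.nu)
  rw [e1] at h
  have h1 := h.rot
  have hβv := notMem_of_nodup (e3 ▸ h1.nv)
  have h2 : Irr ((v1 ++ α :: (w2 ++ w1)) ++ [β]) (u1 ++ β :: ((s1 ++ [δ]) ++ s2)) := by
    rw [← e3, ← e2, ← hu]
    exact h1.symm
  have h3 := h2.rot.symm
  refine ⟨u1 ++ β :: (s2 ++ s1), w2 ++ (w1 ++ [β]), ?_, ?_, ?_, ?_, ?_⟩
  · rw [← e4, e3]
    exact h3
  · intro h4
    rw [e1]
    apply GC.rot hαu.1 hα.1 w2 (w1 ++ [β])
    · intro h'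
      apply hα.2
      simp only [List.mem_append, List.mem_cons, List.not_mem_nil, or_false] at h' ⊢
      tauto
    · intro h'
      apply hα.2
      simp [h']
    · rw [e3]
      apply GC.symm
      rw [hu, e2]
      apply GC.rot hβv.1 hβu.1 s2 (s1 ++ [δ])
      · intro h'
        apply hβu.2
        simp only [List.mem_append, List.mem_cons, List.not_mem_nil, or_false] at h' ⊢
        tauto
      · intro h'
        apply hβu.2
        simp [h']
      · apply GC.symm
        rw [e4, ← e3]
        exact h4
  · rw [hu, ← e4, e2]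
    exact List.Perm.append_left _ (List.Perm.cons _ List.perm_append_comm)
  · have : w1 ++ β :: w2 = (w1 ++ [β]) ++ w2 := by simp
    rw [this]
    exact List.perm_append_comm
  · simp

/-- the dichotomy for the set of letters `α :: v2` -/
theorem Irr.dich {u' v1 v2 : List ι} {α : ι} (h : Irr (u' ++ [α]) (v1 ++ α :: v2))
    (hs : v2 ⊆ u' ++ [α]) (hv : ¬ v1 ++ α :: v2 ⊆ u' ++ [α] ∨ v1 ≠ []) :
    ∃ u1 u2 β δ, u' ++ [α] = u1 ++ β :: u2 ∧ β ∈ v2 ∧ δ ∈ u2 ∧ δ ∉ α :: v2 := by
  by_cases hc : ∀ u1 u2 : List ι, ∀ β δ, u' ++ [α] = u1 ++ β :: u2 → β ∈ α :: v2 → δ ∈ u2 →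
      δ ∈ α :: v2
  · exfalso
    have hnd : (α :: v2).Nodup := (List.nodup_append.1 h.nv).2.1
    obtain ⟨l, r, h1, h2⟩ := closed_suffix (α :: v2) hnd (u' ++ [α]) h.nu (by
      intro a ha
      rcases List.mem_cons.1 ha with rfl | ha
      · simp
      · exact hs ha) hc
    rcases h.suf l r v1 (α :: v2) h1 rfl h2 with h3 | h3
    · subst h3
      simp at h2
    · obtain ⟨h3, h4⟩ := h3
      subst h3 h4
      rcases hv with hv | hv
      · apply hv
        rw [h1]
        exact fun a ha => h2.mem_iff.2 ha
      · exact hv rfl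
  · push Not at hc
    obtain ⟨u1, u2, β, δ, h1, h2, h3, h4⟩ := hc
    refine ⟨u1, u2, β, δ, h1, ?_, h3, h4⟩
    rcases List.mem_cons.1 h2 with rfl | h5
    · exfalso
      have hαu := notMem_of_nodup h.nu
      have h6 : u' ++ [β] = (u1 ++ [β]) ++ u2 := by rw [h1]; simp
      have := prefix_last hαu.1 h6 (by simp)
      subst this
      simp at h3
    · exact h5

/-- balanced irreducible equations -/
theorem bal_GC [Countable ι] (m : ℕ) : ∀ (v1 v2 u' : List ι) (α : ι), v1.length = m →
    Irr (u' ++ [α]) (v1 ++ α :: v2) → (u' ++ [α]).Perm (v1 ++ α :: v2) → u' ≠ [] →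
    GC (u' ++ [α]) (v1 ++ α :: v2) := by
  classical
  induction m using Nat.strong_induction_on with
  | _ m ih =>
    intro v1 v2 u' α hm h hp hu'
    have hα := notMem_of_nodup h.nv
    have hαu := notMem_of_nodup h.nu
    by_cases hv1 : v1 = []
    · subst hv1
      obtain ⟨x, u'', rfl⟩ := List.exists_cons_of_ne_nil hu'
      have hx : x ∈ v2 := by
        have h1 : x ∈ [] ++ α :: v2 := hp.mem_iff.1 (by simp)
        rw [List.nil_append] at h1
        rcases List.mem_cons.1 h1 with rfl | h2
        · exact absurd (by simp) hαu.1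
        · exact h2
      obtain ⟨w1, w2, rfl⟩ := List.append_of_mem hx
      have e1 : [] ++ α :: (w1 ++ x :: w2) = [] ++ α :: ((w1 ++ [x]) ++ w2) := by simp
      rw [e1]
      apply GC.rot hαu.1 (by simp) w2 (w1 ++ [x])
      · intro h'
        apply hα.2
        simp only [List.mem_append, List.mem_cons, List.not_mem_nil, or_false] at h' ⊢
        tauto
      · intro h'
        apply hα.2
        simp [h']
      · have hAB : u''.Perm (w2 ++ w1) := by
          have h1 : (x :: α :: u'').Perm (x :: α :: (w1 ++ w2)) := by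
            have h2 : (x :: α :: u'').Perm (x :: u'' ++ [α]) := by
              rw [List.cons_append]
              exact List.Perm.cons x (List.perm_append_singleton α u'').symm
            have h3 : ([] ++ α :: (w1 ++ x :: w2)).Perm (α :: x :: (w1 ++ w2)) := by
              rw [List.nil_append]
              exact List.Perm.cons α List.perm_middle
            exact h2.trans (hp.trans (h3.trans (List.Perm.swap x α _)))
          exact ((List.perm_cons α).1 ((List.perm_cons x).1 h1)).trans List.perm_append_comm
        have hnu : x ∉ u'' ++ [α] ∧ (u'' ++ [α]).Nodup := by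
          have := h.nu
          rw [List.cons_append] at this
          exact List.nodup_cons.1 this
        by_cases hAB' : u'' = w2 ++ w1
        · right
          refine ⟨[x], u'', [α], by simp, ?_, by simp, by simp⟩
          rw [hAB']
          simp
        · left
          have h5 : x ∉ u'' := fun h' => hnu.1 (by simp [h'])
          have h6 : α ∉ u'' := fun h' => hαu.1 (by simp [h'])
          have h7 : x ≠ α := fun h' => hnu.1 (by simp [h'])
          have h8 := standard (List.nodup_append.1 hnu.2).1 h5 h6 h7 hAB hAB'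
          simpa using h8
    · obtain ⟨u1, u2, β, δ, h1, h2, h3, h4⟩ := h.dich (by
        intro a ha
        rw [hp.mem_iff]
        simp [ha]) (Or.inr hv1)
      obtain ⟨a, b, h5, h6, h7, h8, h9⟩ := h.reduce h2 h1 h3
      apply h6
      have hδ : δ ∈ v1 := by
        have h10 : δ ∈ v1 ++ α :: v2 := by
          rw [← hp.mem_iff, h1]
          simp [h3]
        rcases List.mem_append.1 h10 with h11 | h11
        · exact h11
        · exact absurd h11 h4
      obtain ⟨p, q, rfl⟩ := List.append_of_mem hδ
      have e1 : p ++ δ :: q ++ α :: b = p ++ δ :: (q ++ α :: b) := by simp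
      have hp' : (a ++ [δ]).Perm (p ++ δ :: q ++ α :: b) :=
        h7.trans (hp.trans (List.Perm.append_left _ (List.Perm.cons _ h8.symm)))
      rw [e1] at h5 hp' ⊢
      refine ih p.length ?_ p (q ++ α :: b) a δ rfl h5 hp' h9
      rw [← hm]
      simp

/-- removal of the last letter of the right hand side -/
theorem Irr.drop {u' v' : List ι} {α β : ι} (h : Irr (u' ++ [α]) (v' ++ [β]))
    (hα : α ∉ v' ++ [β]) {γ : ι} (hγ : γ ∈ v') (hγ' : γ ∉ u' ++ [α]) : Irr (u' ++ [α]) v' := by
  have hαv : α ∉ v' := fun h' => hα (by simp [h'])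
  refine ⟨h.nu, (List.nodup_append.1 h.nv).1, ?_, ?_, ?_⟩
  · constructor
    · intro h1
      exact absurd (h1 (by simp)) hαv
    · intro h1
      exact absurd (h1 hγ) hγ'
  · intro l r l' r' h1 h2 h3
    rcases h.pre l r l' (r' ++ [β]) h1 (by rw [h2]; simp) h3 with h4 | h4
    · exact Or.inl h4
    · simp at h4
  · intro l r l' r' h1 h2 h3
    rcases suffix_last h1 with h4 | ⟨r1, h4, -⟩
    · exact Or.inl h4
    · exfalso
      apply hαv
      rw [h2, List.mem_append]
      right
      rw [← h3.mem_iff, h4]
      simp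

/-- unbalanced irreducible equations whose left hand side ends with a letter that does not occur
in the right hand side -/
theorem one_end [Countable ι] {u' v : List ι} {α : ι} (h : Irr (u' ++ [α]) v) (hα : α ∉ v)
    (ih : ∀ u1 v1 : List ι, u1.length + v1.length < (u' ++ [α]).length + v.length →
      Irr u1 v1 → ¬ u1 ⊆ v1 → Good {(u1, v1)}) : Good {(u' ++ [α], v)} := by
  have hnv : ¬ v ⊆ u' ++ [α] := by
    intro h1
    exact hα (h.bal.2 h1 (by simp))
  obtain ⟨v', β, rfl⟩ : ∃ v' β, v = v' ++ [β] := by
    rcases List.eq_nil_or_concat v with h5 | ⟨v', β, h5⟩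
    · subst h5
      exact absurd (by simp) hnv
    · exact ⟨v', β, by rw [h5, List.concat_eq_append]⟩
  have hab : α ≠ β := fun h' => hα (by simp [h'])
  have hαv : α ∉ v' := fun h' => hα (by simp [h'])
  have hαu := notMem_of_nodup h.nu
  by_cases hg : ∃ γ ∈ v', γ ∉ u' ++ [α]
  · obtain ⟨γ, hγ, hγ'⟩ := hg
    have h1 := h.drop hα hγ hγ'
    apply levi α β hab u' v' hαu.1
    rw [flat_rep_of_notMem α β v' hαv]
    refine ih _ _ ?_ h1 ?_
    · simp
    · exact fun h2 => hαv (h2 (by simp))
  · push Not at hg
    have hβ : β ∉ u' ++ [α] := by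
      intro h1
      apply hnv
      intro a ha
      rcases List.mem_append.1 ha with h2 | h2
      · exact hg a h2
      · rw [List.mem_singleton] at h2
        exact h2 ▸ h1
    have hβu : β ∉ u' := fun h' => hβ (by simp [h'])
    have hβv := notMem_of_nodup h.nv
    by_cases hg2 : ∃ γ ∈ u', γ ∉ v' ++ [β]
    · obtain ⟨γ, hγ, hγ'⟩ := hg2
      have h1 := (h.symm.drop hβ hγ hγ')
      apply Good.symm
      apply levi β α hab.symm v' u' hβv.1
      rw [flat_rep_of_notMem β α u' hβu]
      apply Good.symm
      refine ih _ _ ?_ h1.symm ?_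
      · simp
      · intro h2
        exact hγ' (h2 hγ)
    · push Not at hg2
      have hp : u'.Perm v' := by
        refine perm_of_subset (List.nodup_append.1 h.nu).1 (List.nodup_append.1 h.nv).1 ?_ ?_
        · intro a ha
          rcases List.mem_append.1 (hg2 a ha) with h2 | h2
          · exact h2
          · rw [List.mem_singleton] at h2
            exact absurd (h2 ▸ ha) hβu
        · intro a ha
          rcases List.mem_append.1 (hg a ha) with h2 | h2
          · exact h2
          · rw [List.mem_singleton] at h2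
            exact absurd (h2 ▸ ha) hαv
      rcases h.pre u' [α] v' [β] rfl rfl hp with h3 | h3
      · subst h3
        have : v' = [] := hp.symm.eq_nil
        subst this
        exact base_one _ β hβ
      · simp at h3

/-- unbalanced irreducible equations -/
theorem unbal [Countable ι] (N : ℕ) : ∀ u v : List ι, u.length + v.length = N → Irr u v →
    ¬ u ⊆ v → Good {(u, v)} := by
  induction N using Nat.strong_induction_on with
  | _ N ih =>
    intro u v hN h huv
    have hvu : ¬ v ⊆ u := fun h' => huv (h.bal.2 h')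
    have key1 : ∀ u2 v2 : List ι, ∀ α, u2.length + 1 + v2.length = N → Irr (u2 ++ [α]) v2 →
        α ∉ v2 → Good {(u2 ++ [α], v2)} := by
      intro u2 v2 α h1 h2 h3
      apply one_end h2 h3
      intro u3 v3 h4 h5 h6
      refine ih _ ?_ u3 v3 rfl h5 h6
      rw [← h1]
      simpa using h4
    have key2 : ∀ u2 v2 : List ι, ∀ β, u2.length + (v2.length + 1) = N → Irr u2 (v2 ++ [β]) →
        β ∉ u2 → Good {(u2, v2 ++ [β])} := by
      intro u2 v2 β h1 h2 h3
      apply Good.symm
      exact key1 v2 u2 β (by omega) h2.symm h3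
    obtain ⟨u', α, rfl⟩ : ∃ u' α, u = u' ++ [α] := by
      rcases List.eq_nil_or_concat u with h5 | ⟨u', α, h5⟩
      · subst h5
        exact absurd (by simp) huv
      · exact ⟨u', α, by rw [h5, List.concat_eq_append]⟩
    by_cases hα : α ∈ v
    swap
    · exact key1 u' v α (by simpa using hN) h hα
    obtain ⟨v1, v2, rfl⟩ := List.append_of_mem hα
    clear hα
    have main : ∀ (m : ℕ) (v1 v2 u' : List ι) (α : ι), v1.length = m →
        (u' ++ [α]).length + (v1 ++ α :: v2).length = N →
        Irr (u' ++ [α]) (v1 ++ α :: v2) → ¬ u' ++ [α] ⊆ v1 ++ α :: v2 →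
        Good {(u' ++ [α], v1 ++ α :: v2)} := by
      intro m
      induction m using Nat.strong_induction_on with
      | _ m ihm =>
        intro v1 v2 u' α hm hN h huv
        have hvu : ¬ v1 ++ α :: v2 ⊆ u' ++ [α] := fun h' => huv (h.bal.2 h')
        have hα := notMem_of_nodup h.nv
        have hαu := notMem_of_nodup h.nu
        have back : GC (u' ++ [α]) (v1 ++ α :: v2) → Good {(u' ++ [α], v1 ++ α :: v2)} := by
          rintro (h1 | h1)
          · exact h1
          · exact absurd (fun a ha => h1.perm.mem_iff.1 ha) huv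
        by_cases hβ : ∃ β ∈ v2, β ∉ u' ++ [α]
        · obtain ⟨β, hβ, hβu⟩ := hβ
          obtain ⟨w1, w2, rfl⟩ := List.append_of_mem hβ
          have e1 : v1 ++ α :: (w1 ++ β :: w2) = v1 ++ α :: ((w1 ++ [β]) ++ w2) := by simp
          have e3 : v1 ++ α :: (w2 ++ (w1 ++ [β])) = (v1 ++ α :: (w2 ++ w1)) ++ [β] := by simp
          apply back
          rw [e1] at h ⊢
          apply GC.rot hαu.1 hα.1 w2 (w1 ++ [β])
          · intro h'
            apply hα.2
            simp only [List.mem_append, List.mem_cons, List.not_mem_nil, or_false] at h' ⊢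
            tauto
          · intro h'
            apply hα.2
            simp [h']
          · rw [e3]
            left
            apply key2 _ _ β
            · simp only [List.length_append, List.length_cons, List.length_nil] at hN ⊢
              omega
            · rw [← e3]
              exact h.rot
            · exact hβu
        · push Not at hβ
          obtain ⟨u1, u2, β, δ, h1, h2, h3, h4⟩ := h.dich hβ (Or.inl hvu)
          obtain ⟨a, b, h5, h6, h7, h8, h9⟩ := h.reduce h2 h1 h3
          apply back
          apply h6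
          left
          have hlen : (a ++ [δ]).length + (v1 ++ α :: b).length = N := by
            rw [h7.length_eq, ← hN, List.length_append (as := v1), List.length_cons,
              h8.length_eq, List.length_append (as := v1), List.length_cons]
          by_cases hδ : δ ∈ v1
          · obtain ⟨p, q, rfl⟩ := List.append_of_mem hδ
            have e1 : p ++ δ :: q ++ α :: b = p ++ δ :: (q ++ α :: b) := by simp
            have hsub : ¬ a ++ [δ] ⊆ p ++ δ :: q ++ α :: b := by
              intro h10
              apply huv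
              intro c hc
              have h11 := h10 (h7.mem_iff.2 hc)
              have h12 : (p ++ δ :: q ++ α :: b).Perm (p ++ δ :: q ++ α :: v2) :=
                List.Perm.append_left _ (List.Perm.cons _ h8)
              exact h12.mem_iff.1 h11
            rw [e1] at h5 hsub hlen ⊢
            refine ihm p.length ?_ p (q ++ α :: b) a δ rfl hlen h5 hsub
            rw [← hm]
            simp
          · apply key1 _ _ δ
            · rw [← hlen]
              simp
            · exact h5
            · intro h10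
              rcases List.mem_append.1 h10 with h11 | h11
              · exact hδ h11
              · apply h4
                rcases List.mem_cons.1 h11 with h12 | h12
                · exact h12 ▸ List.mem_cons_self
                · exact List.mem_cons_of_mem _ (h8.mem_iff.1 h12)
    exact main v1.length v1 v2 u' α rfl hN h huv

end

end Pool.Agent.H.MP_48f3d1_lc.Lin
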