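import Pool.Agent.H.MP_48f3d1_lc.Lin.Basic

/-! The explicit generic solution of the equation `x A y = y B x`, where `B` is a permutation
of `A` different from `A`. -/

namespace Pool.Agent.H.MP_48f3d1_lc.Lin

section

variable {ι : Type}

/-- first extra letter -/
def la : ι ⊕ Bool := Sum.inr false

/-- second extra letter -/
def lb : ι ⊕ Bool := Sum.inr true

theorem la_ne_lb : (la : ι ⊕ Bool) ≠ lb := by simp [la, lb]

/-- the word with `k` letters `a` and one letter `b`, which stands after `j` letters `a` -/
def C (ι : Type) (k j : ℕ) : List (ι ⊕ Bool) :=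
  List.replicate j la ++ lb :: List.replicate (k - j) la

theorem C_length {k j : ℕ} (h : j ≤ k) : (C ι k j).length = k + 1 := by
  simp [C]
  omega

theorem C_self (k : ℕ) : C ι k k = List.replicate k la ++ [lb] := by simp [C]

theorem C_zero (k : ℕ) : C ι k 0 = lb :: List.replicate k la := by simp [C]

theorem rep_lb_inj {i j : ℕ} {s s' : List (ι ⊕ Bool)}
    (h : List.replicate i la ++ lb :: s = List.replicate j la ++ lb :: s') : i = j := by
  induction i generalizing j with
  | zero =>
    cases j with
    | zero => rfl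
    | succ j => simp [List.replicate_succ, la, lb] at h
  | succ i ih =>
    cases j with
    | zero => simp [List.replicate_succ, la, lb] at h
    | succ j =>
      simp only [List.replicate_succ, List.cons_append, List.cons.injEq, true_and] at h
      rw [ih h]

theorem rep_lb_le {i j : ℕ} {s s' : List (ι ⊕ Bool)}
    (h : List.replicate i la ++ lb :: s = List.replicate j la ++ s') : j ≤ i := by
  induction i generalizing j with
  | zero =>
    cases j with
    | zero => rfl
    | succ j => simp [List.replicate_succ, la, lb] at h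
  | succ i ih =>
    cases j with
    | zero => omega
    | succ j =>
      simp only [List.replicate_succ, List.cons_append, List.cons.injEq, true_and] at h
      have := ih h
      omega

theorem C_inj {k i j : ℕ} {s s' : List (ι ⊕ Bool)} (h : C ι k i ++ s = C ι k j ++ s') :
    i = j := by
  unfold C at h
  rw [List.append_assoc, List.append_assoc, List.cons_append, List.cons_append] at h
  exact rep_lb_inj h

theorem C_la {k j : ℕ} (h1 : 1 ≤ j) (h2 : j ≤ k) :
    C ι k j ++ [la] = la :: C ι k (j - 1) := by
  obtain ⟨i, rfl⟩ : ∃ i, j = i + 1 := ⟨j - 1, by omega⟩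
  unfold C
  rw [Nat.add_sub_cancel, List.replicate_succ, List.cons_append, List.cons_append,
    List.append_assoc, List.cons_append]
  congr 2
  have h3 : k - i = (k - (i + 1)) + 1 := by omega
  rw [h3, List.replicate_succ']

end

section

variable {ι : Type} [DecidableEq ι] (A : List ι) (t : Equiv.Perm ι)

/-- the number of the unknown `z`, counted from the end of `A` -/
def J (z : ι) : ℕ := A.length - A.idxOf z

theorem J_pos {z : ι} (hz : z ∈ A) : 1 ≤ J A z := by
  have := List.idxOf_lt_length_iff.2 hz
  unfold J
  omega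

theorem J_le (z : ι) : J A z ≤ A.length := Nat.sub_le _ _

theorem J_inj {z z' : ι} (hz : z ∈ A) (hz' : z' ∈ A) (h : J A z = J A z') : z = z' := by
  have h1 := List.idxOf_lt_length_iff.2 hz
  have h2 := List.idxOf_lt_length_iff.2 hz'
  unfold J at h
  have h3 : A.idxOf z = A.idxOf z' := by omega
  exact (List.idxOf_inj hz).1 h3

theorem J_append {L A' : List ι} {z : ι} (hA : A.Nodup) (h : A = L ++ z :: A') :
    J A z = A'.length + 1 := by
  subst h
  have h1 : z ∉ L := by
    intro h2
    rw [List.nodup_append] at hA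
    exact hA.2.2 z h2 z (by simp) rfl
  unfold J
  rw [List.idxOf_append_of_notMem h1]
  simp

/-- the product of the first `n` blocks -/
def P : ℕ → ι → List (ι ⊕ Bool)
  | 0, _ => []
  | n + 1, z => C ι A.length (J A z) ++ P n (t z)

theorem P_succ (n : ℕ) (z : ι) : P A t (n + 1) z = C ι A.length (J A z) ++ P A t n (t z) := rfl

theorem P_snoc (n : ℕ) (z : ι) :
    P A t (n + 1) z = P A t n z ++ C ι A.length (J A (t^[n] z)) := by
  induction n generalizing z with
  | zero => simp [P]
  | succ n ih =>
    rw [P_succ, ih (t z), P_succ, Function.iterate_succ_apply, List.append_assoc]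

/-- the values of the letters of `A` -/
def Z (E : ℕ) (z : ι) : List (ι ⊕ Bool) := P A t (E + 3) z ++ [la]

/-- the rest of the value after the first block -/
def W (E : ℕ) (z : ι) : List (ι ⊕ Bool) := P A t (E + 2) (t z) ++ [la]

theorem Z_eq (E : ℕ) (z : ι) : Z A t E z = C ι A.length (J A z) ++ W A t E z := by
  unfold Z W
  rw [P_succ, List.append_assoc]

theorem Z_next (E : ℕ) (z : ι) (hz : z ∈ A) (ht : t^[E + 3] z = z) :
    Z A t E (t z) = W A t E z ++ C ι A.length (J A z - 1) := by
  unfold Z W
  rw [P_snoc]
  have h1 : t^[E + 2] (t z) = z := by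
    rw [← Function.iterate_succ_apply]
    exact ht
  rw [h1, List.append_assoc, C_la (J_pos A hz) (J_le A z), List.append_assoc]
  rfl

variable (x y : ι)

/-- the generic solution -/
def G (E : ℕ) (z : ι) : List (ι ⊕ Bool) :=
  if z = x then [lb] else
    if z = y then lb :: (List.replicate A.length la ++ [lb]) else
      if z ∈ A then Z A t E z else [Sum.inl z]

theorem G_x (E : ℕ) : G A t x y E x = [lb] := by simp [G]

theorem G_y (E : ℕ) (hxy : x ≠ y) :
    G A t x y E y = lb :: (List.replicate A.length la ++ [lb]) := by simp [G, hxy.symm]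

theorem G_mem (E : ℕ) (hx : x ∉ A) (hy : y ∉ A) {z : ι} (hz : z ∈ A) :
    G A t x y E z = Z A t E z := by
  have h1 : z ≠ x := fun h => hx (h ▸ hz)
  have h2 : z ≠ y := fun h => hy (h ▸ hz)
  simp [G, h1, h2, hz]

theorem G_ne_nil (E : ℕ) (z : ι) : G A t x y E z ≠ [] := by
  unfold G
  split_ifs
  · simp
  · simp
  · simp [Z]
  · simp

theorem starts (E : ℕ) {j : ℕ} (h1 : 1 ≤ j) (h2 : j ≤ A.length) (p : List ι)
    (s : List (ι ⊕ Bool)) (h : flat (G A t x y E) p = C ι A.length j ++ s) :
    ∃ z p', p = z :: p' ∧ z ∈ A ∧ J A z = j ∧ W A t E z ++ flat (G A t x y E) p' = s := by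
  obtain ⟨i, rfl⟩ : ∃ i, j = i + 1 := ⟨j - 1, by omega⟩
  cases p with
  | nil =>
    rw [flat_nil] at h
    have := congrArg List.length h
    simp [C] at this
  | cons c p =>
    rw [flat_cons] at h
    unfold G at h
    split_ifs at h with h3 h4 h5
    · exfalso
      simp [C, List.replicate_succ, la, lb] at h
    · exfalso
      simp [C, List.replicate_succ, la, lb] at h
    · rw [Z_eq, List.append_assoc] at h
      have h6 := C_inj h
      refine ⟨c, p, rfl, h5, h6, ?_⟩
      rw [h6] at h
      exact List.append_cancel_left h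
    · exfalso
      simp [C, List.replicate_succ, la] at h

theorem run (E : ℕ) (hA : A.Nodup) (hx : x ∉ A) (hy : y ∉ A) (htA : ∀ z ∈ A, t z ∈ A)
    (htE : ∀ z ∈ A, t^[E + 3] z = z) (A' : List ι) :
    ∀ (L : List ι), A = L ++ A' → ∀ p q : List ι,
      flat (G A t x y E) p = C ι A.length A'.length ++ flat (G A t x y E) q →
      ∃ p1 q1, p = A' ++ p1 ∧ q = A'.map t ++ q1 ∧
        flat (G A t x y E) p1 = C ι A.length 0 ++ flat (G A t x y E) q1 := by
  induction A' with
  | nil =>
    intro L _ p q h
    exact ⟨p, q, by simp, by simp, h⟩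
  | cons z A' ih =>
    intro L hL p q h
    have hz : z ∈ A := by rw [hL]; simp
    have hJ := J_append A hA hL
    have hlen : (z :: A').length ≤ A.length := by
      rw [hL]
      simp
    obtain ⟨z', p', rfl, hz', hJ', h1⟩ := starts A t x y E (by simp) hlen p _ h
    have : z' = z := J_inj A hz' hz (by rw [hJ', hJ]; simp)
    subst this
    have h2 : W A t E z' = C ι A.length (J A (t z')) ++ (P A t (E + 1) (t (t z')) ++ [la]) := by
      unfold W
      rw [P_succ, List.append_assoc]
    have h1' := h1
    rw [h2, List.append_assoc] at h1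
    obtain ⟨w, q', rfl, hw, hJw, h3⟩ := starts A t x y E (J_pos A (htA _ hz)) (J_le A _) q _
      h1.symm
    have : w = t z' := J_inj A hw (htA _ hz) hJw
    subst this
    rw [flat_cons, G_mem A t x y E hx hy hw, Z_next A t E z' hz (htE _ hz), List.append_assoc]
      at h1'
    have h4 := List.append_cancel_left h1'
    rw [hJ, Nat.add_sub_cancel] at h4
    obtain ⟨p1, q1, rfl, rfl, h5⟩ := ih (L ++ [z']) (by rw [hL]; simp) p' q' h4
    exact ⟨p1, q1, by simp, by simp, h5⟩

theorem P_fix {z : ι} (hz : t z = z) (n : ℕ) :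
    P A t (n + 1) z = C ι A.length (J A z) ++ P A t n z := by
  rw [P_succ, hz]

theorem P_fix' {z : ι} (hz : t z = z) (n : ℕ) :
    P A t (n + 1) z = P A t n z ++ C ι A.length (J A z) := by
  rw [P_snoc, Function.iterate_fixed hz]

theorem dead (E : ℕ) (hx : x ∉ A) (hy : y ∉ A) (htA : ∀ z ∈ A, t z ∈ A) (j : ℕ) :
    ∀ z ∈ A, J A z = j → (∃ z' ∈ A, J A z' ≤ j ∧ t z' ≠ z') → ∀ p q : List ι,
      W A t E z ++ flat (G A t x y E) p ≠ C ι A.length j ++ flat (G A t x y E) q := by
  induction j with
  | zero =>
    intro z hz hJ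
    have := J_pos A hz
    omega
  | succ j ih =>
    rintro z hz hJ ⟨z', hz', hJz', hne⟩ p q h
    have hW : W A t E z = C ι A.length (J A (t z)) ++ (P A t (E + 1) (t (t z)) ++ [la]) := by
      unfold W
      rw [P_succ, List.append_assoc]
    have h0 := h
    rw [hW, List.append_assoc] at h0
    have h1 := C_inj h0
    have htz : t z = z := J_inj A (htA _ hz) hz (by rw [h1, hJ])
    rw [h1] at h0
    have h2 := List.append_cancel_left h0
    rw [htz, htz] at h2
    have h3 := h2
    rw [P_fix A t htz, List.append_assoc, List.append_assoc, hJ] at h3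
    have hle : j + 1 ≤ A.length := hJ ▸ J_le A z
    obtain ⟨z1, q', rfl, hz1, hJ1, -⟩ := starts A t x y E (by omega) hle q _ h3.symm
    have : z1 = z := J_inj A hz1 hz (by rw [hJ1, hJ])
    subst this
    rw [flat_cons, G_mem A t x y E hx hy hz1] at h2
    unfold Z at h2
    rw [P_fix' A t htz (E + 2), P_fix' A t htz (E + 1)] at h2
    simp only [List.append_assoc] at h2
    have h4 := List.append_cancel_left h2
    rw [hJ] at h4
    have hC : C ι A.length (j + 1) ++ [la] = la :: C ι A.length j := by
      rw [C_la (by omega) hle, Nat.add_sub_cancel]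
    have h5 : [la] ++ flat (G A t x y E) p = [la] ++ (C ι A.length j ++ (C ι A.length j ++
          flat (G A t x y E) q')) := by
      have e1 : C ι A.length (j + 1) ++ (C ι A.length (j + 1) ++ ([la] ++
          flat (G A t x y E) q')) = C ι A.length (j + 1) ++ ((C ι A.length (j + 1) ++ [la]) ++
          flat (G A t x y E) q') := by simp
      rw [e1, hC] at h4
      have e2 : C ι A.length (j + 1) ++ (la :: C ι A.length j ++ flat (G A t x y E) q') =
          (C ι A.length (j + 1) ++ [la]) ++ (C ι A.length j ++ flat (G A t x y E) q') := by simp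
      rw [e2, hC] at h4
      rw [h4]
      simp
    have h6 := List.append_cancel_left h5
    have hj : 1 ≤ j := by
      by_contra hj
      have hj0 : j = 0 := by omega
      subst hj0
      have h7 := J_pos A hz'
      have : z' = z1 := J_inj A hz' hz (by omega)
      exact hne (this ▸ htz)
    obtain ⟨z2, p', rfl, hz2, hJ2, h7⟩ := starts A t x y E hj (by omega) p _ h6
    refine ih z2 hz2 hJ2 ⟨z', hz', ?_, hne⟩ p' q' h7
    by_contra h8
    have : z' = z1 := J_inj A hz' hz (by omega)
    exact hne (this ▸ htz)

/-- the equation `x A y = y B x` as a system -/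
def Sys : Set (List ι × List ι) := {(x :: (A ++ [y]), y :: (A.map t ++ [x]))}

omit [DecidableEq ι] in
theorem sys_cons (w : List ι) :
    Cons (Sys A t x y) (x :: (A ++ y :: w)) (y :: (A.map t ++ x :: w)) := by
  have h : Cons (Sys A t x y) (x :: (A ++ [y])) (y :: (A.map t ++ [x])) := Cons.of_mem rfl
  have := h.append (Cons.refl w)
  simpa using this

theorem sol_run (E : ℕ) (hA : A.Nodup) (hx : x ∉ A) (hy : y ∉ A) (htA : ∀ z ∈ A, t z ∈ A)
    (htE : ∀ z ∈ A, t^[E + 3] z = z) (A' : List ι) :
    ∀ (L : List ι), A = L ++ A' → flat (G A t x y E) A' ++ C ι A.length 0 =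
      C ι A.length A'.length ++ flat (G A t x y E) (A'.map t) := by
  induction A' with
  | nil =>
    intro L _
    simp [flat_nil]
  | cons z A' ih =>
    intro L hL
    have hz : z ∈ A := by rw [hL]; simp
    have hJ := J_append A hA hL
    have h1 := ih (L ++ [z]) (by rw [hL]; simp)
    rw [flat_cons, List.append_assoc, h1, List.map_cons, flat_cons,
      G_mem A t x y E hx hy hz, G_mem A t x y E hx hy (htA _ hz),
      Z_next A t E z hz (htE _ hz), Z_eq, hJ, Nat.add_sub_cancel, List.length_cons]
    simp [List.append_assoc]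

theorem sol (E : ℕ) (hA : A.Nodup) (hx : x ∉ A) (hy : y ∉ A) (hxy : x ≠ y)
    (htA : ∀ z ∈ A, t z ∈ A) (htE : ∀ z ∈ A, t^[E + 3] z = z) :
    flat (G A t x y E) (x :: (A ++ [y])) = flat (G A t x y E) (y :: (A.map t ++ [x])) := by
  have h := sol_run A t x y E hA hx hy htA htE A [] rfl
  rw [C_zero, C_self] at h
  rw [flat_cons, flat_cons, flat_append, flat_append, flat_single, flat_single, G_x,
    G_y A t x y E hxy]
  have h2 : flat (G A t x y E) A ++ lb :: (List.replicate A.length la ++ [lb]) =
      (flat (G A t x y E) A ++ lb :: List.replicate A.length la) ++ [lb] := by simp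
  rw [h2, h]
  simp

theorem head_ne (E : ℕ) {c d : ι} {s s' : List (ι ⊕ Bool)} (hcd : c ≠ d)
    (h : G A t x y E c ++ s = G A t x y E d ++ s') :
    (c = x ∧ d = y) ∨ (c = y ∧ d = x) := by
  unfold G at h
  by_cases c1 : c = x
  · by_cases d1 : d = x
    · exact absurd (c1.trans d1.symm) hcd
    · by_cases d2 : d = y
      · exact Or.inl ⟨c1, d2⟩
      · exfalso
        rw [if_pos c1, if_neg d1, if_neg d2] at h
        split_ifs at h with d3
        · rw [Z_eq] at h
          obtain ⟨i, hi⟩ : ∃ i, J A d = i + 1 := ⟨J A d - 1, by have := J_pos A d3; omega⟩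
          simp [C, hi, List.replicate_succ, la, lb] at h
        · simp [lb] at h
  · by_cases c2 : c = y
    · by_cases d1 : d = x
      · exact Or.inr ⟨c2, d1⟩
      · by_cases d2 : d = y
        · exact absurd (c2.trans d2.symm) hcd
        · exfalso
          rw [if_neg c1, if_pos c2, if_neg d1, if_neg d2] at h
          split_ifs at h with d3
          · rw [Z_eq] at h
            obtain ⟨i, hi⟩ : ∃ i, J A d = i + 1 := ⟨J A d - 1, by have := J_pos A d3; omega⟩
            simp [C, hi, List.replicate_succ, la, lb] at h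
          · simp [lb] at h
    · exfalso
      rw [if_neg c1, if_neg c2] at h
      split_ifs at h with c3 d1 d2 d3 d1 d2 d3
      · rw [Z_eq] at h
        obtain ⟨i, hi⟩ : ∃ i, J A c = i + 1 := ⟨J A c - 1, by have := J_pos A c3; omega⟩
        simp [C, hi, List.replicate_succ, la, lb] at h
      · rw [Z_eq] at h
        obtain ⟨i, hi⟩ : ∃ i, J A c = i + 1 := ⟨J A c - 1, by have := J_pos A c3; omega⟩
        simp [C, hi, List.replicate_succ, la, lb] at h
      · rw [Z_eq, Z_eq, List.append_assoc, List.append_assoc] at h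
        exact hcd (J_inj A c3 d3 (C_inj h))
      · rw [Z_eq] at h
        obtain ⟨i, hi⟩ : ∃ i, J A c = i + 1 := ⟨J A c - 1, by have := J_pos A c3; omega⟩
        simp [C, hi, List.replicate_succ, la] at h
      · simp [lb] at h
      · simp [lb] at h
      · rw [Z_eq] at h
        obtain ⟨i, hi⟩ : ∃ i, J A d = i + 1 := ⟨J A d - 1, by have := J_pos A d3; omega⟩
        simp [C, hi, List.replicate_succ, la] at h
      · simp only [List.cons_append, List.nil_append, List.cons.injEq, Sum.inl.injEq] at h
        exact hcd h.1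

theorem starts_lb (E : ℕ) (p : List ι) (s : List (ι ⊕ Bool))
    (h : flat (G A t x y E) p = lb :: s) : ∃ p', p = x :: p' ∨ p = y :: p' := by
  cases p with
  | nil => simp [flat_nil] at h
  | cons c p =>
    rw [flat_cons] at h
    unfold G at h
    split_ifs at h with h3 h4 h5
    · exact ⟨p, Or.inl (by rw [h3])⟩
    · exact ⟨p, Or.inr (by rw [h4])⟩
    · exfalso
      rw [Z_eq] at h
      obtain ⟨i, hi⟩ : ∃ i, J A c = i + 1 := ⟨J A c - 1, by have := J_pos A h5; omega⟩
      simp [C, hi, List.replicate_succ, la, lb] at h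
    · simp [lb] at h

theorem starts_rep (E : ℕ) (hk : 1 ≤ A.length) (p : List ι) (s : List (ι ⊕ Bool))
    (h : flat (G A t x y E) p = List.replicate A.length la ++ s) :
    ∃ z p', p = z :: p' ∧ z ∈ A ∧ J A z = A.length ∧
      lb :: (W A t E z ++ flat (G A t x y E) p') = s := by
  obtain ⟨k, hk'⟩ : ∃ k, A.length = k + 1 := ⟨A.length - 1, by omega⟩
  cases p with
  | nil =>
    rw [flat_nil, hk'] at h
    simp [List.replicate_succ] at h
  | cons c p =>
    rw [flat_cons] at h
    unfold G at h
    split_ifs at h with h3 h4 h5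
    · exfalso
      simp [hk', List.replicate_succ, la, lb] at h
    · exfalso
      simp [hk', List.replicate_succ, la, lb] at h
    · have h6 : J A c = A.length := by
        have h7 := J_le A c
        rw [Z_eq] at h
        unfold C at h
        rw [List.append_assoc, List.append_assoc, List.cons_append] at h
        have := rep_lb_le h
        omega
      refine ⟨c, p, rfl, h5, h6, ?_⟩
      rw [Z_eq, h6, C_self] at h
      simp only [List.append_assoc, List.cons_append, List.nil_append] at h
      exact List.append_cancel_left h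
    · exfalso
      simp [hk', List.replicate_succ, la] at h

theorem main_xy (E : ℕ) (hA : A.Nodup) (hx : x ∉ A) (hy : y ∉ A) (hxy : x ≠ y)
    (htA : ∀ z ∈ A, t z ∈ A) (htE : ∀ z ∈ A, t^[E + 3] z = z) (hne : ∃ z ∈ A, t z ≠ z)
    (N : ℕ) (ih : ∀ p q : List ι, p.length + q.length < N →
      flat (G A t x y E) p = flat (G A t x y E) q → Cons (Sys A t x y) p q)
    (p q : List ι) (hN : (x :: p).length + (y :: q).length = N)
    (h : flat (G A t x y E) (x :: p) = flat (G A t x y E) (y :: q)) :
    Cons (Sys A t x y) (x :: p) (y :: q) := by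
  have hk : 1 ≤ A.length := by
    obtain ⟨z, hz, -⟩ := hne
    exact List.length_pos_of_mem hz
  rw [flat_cons, flat_cons, G_x, G_y A t x y E hxy] at h
  have h1 : flat (G A t x y E) p = C ι A.length A.length ++ flat (G A t x y E) q := by
    rw [C_self]
    simpa using h
  obtain ⟨p1, q1, rfl, rfl, h2⟩ := run A t x y E hA hx hy htA htE A [] rfl p q h1
  rw [C_zero] at h2
  simp only [List.length_cons, List.length_append, List.length_map] at hN
  obtain ⟨p2, rfl | rfl⟩ := starts_lb A t x y E p1 _ h2
  · have h3 := h2
    rw [flat_cons, G_x] at h3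
    have h4 : flat (G A t x y E) p2 = List.replicate A.length la ++ flat (G A t x y E) q1 := by
      simpa using h3
    obtain ⟨z, p3, rfl, hz, hJ, h5⟩ := starts_rep A t x y E hk p2 _ h4
    obtain ⟨q2, rfl | rfl⟩ := starts_lb A t x y E q1 _ h5.symm
    · have h6 : flat (G A t x y E) (x :: z :: p3) = flat (G A t x y E) (y :: q2) := by
        rw [h2, flat_cons (G A t x y E) x, flat_cons (G A t x y E) y, G_x,
          G_y A t x y E hxy]
        simp
      have h7 := ih (x :: z :: p3) (y :: q2) (by
        simp only [List.length_cons] at hN ⊢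
        omega) h6
      exact (((Cons.refl A).append h7).cons x).trans (sys_cons A t x y q2)
    · exfalso
      rw [flat_cons, G_y A t x y E hxy] at h5
      have h6 : W A t E z ++ flat (G A t x y E) p3 =
          C ι A.length A.length ++ flat (G A t x y E) q2 := by
        rw [C_self]
        simpa using h5
      obtain ⟨z', hz', hne'⟩ := hne
      exact dead A t x y E hx hy htA A.length z hz hJ ⟨z', hz', J_le A z', hne'⟩ p3 q2 h6
  · have h3 : flat (G A t x y E) q1 = flat (G A t x y E) (x :: p2) := by
      rw [flat_cons, G_y A t x y E hxy] at h2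
      rw [flat_cons, G_x]
      simp only [List.cons_append, List.append_assoc, List.cons.injEq, true_and] at h2
      exact (List.append_cancel_left h2).symm
    have h7 := ih q1 (x :: p2) (by
        simp only [List.length_cons] at hN ⊢
        omega) h3
    exact (sys_cons A t x y p2).trans (((Cons.refl (A.map t)).append h7.symm).cons y)

theorem generic (E : ℕ) (hA : A.Nodup) (hx : x ∉ A) (hy : y ∉ A) (hxy : x ≠ y)
    (htA : ∀ z ∈ A, t z ∈ A) (htE : ∀ z ∈ A, t^[E + 3] z = z) (hne : ∃ z ∈ A, t z ≠ z)
    (N : ℕ) : ∀ p q : List ι, p.length + q.length = N →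
      flat (G A t x y E) p = flat (G A t x y E) q → Cons (Sys A t x y) p q := by
  induction N using Nat.strong_induction_on with
  | _ N ih =>
    intro p q hN h
    cases p with
    | nil =>
      cases q with
      | nil => exact Cons.refl _
      | cons d q =>
        exfalso
        rw [flat_cons, flat_nil] at h
        exact G_ne_nil A t x y E d (List.append_eq_nil_iff.1 h.symm).1
    | cons c p =>
      cases q with
      | nil =>
        exfalso
        rw [flat_cons, flat_nil] at h
        exact G_ne_nil A t x y E c (List.append_eq_nil_iff.1 h).1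
      | cons d q =>
        have ih' : ∀ p q : List ι, p.length + q.length < N →
            flat (G A t x y E) p = flat (G A t x y E) q → Cons (Sys A t x y) p q :=
          fun p q hpq hpq' => ih _ hpq p q rfl hpq'
        by_cases hcd : c = d
        · subst hcd
          rw [flat_cons, flat_cons] at h
          refine (ih' p q ?_ (List.append_cancel_left h)).cons c
          simp only [List.length_cons] at hN
          omega
        · have h' := h
          rw [flat_cons, flat_cons] at h'
          rcases head_ne A t x y E hcd h' with ⟨rfl, rfl⟩ | ⟨rfl, rfl⟩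
          · exact main_xy A t c d E hA hx hy hxy htA htE hne N ih' p q hN h
          · refine (main_xy A t d c E hA hx hy hxy htA htE hne N ih' q p ?_ h.symm).symm
            rw [← hN]
            exact Nat.add_comm _ _

/-- a permutation which maps `A` to `B` -/
theorem exists_perm {A B : List ι} (hA : A.Nodup) (hp : A.Perm B) :
    ∃ t : Equiv.Perm ι, A.map t = B ∧ (∀ z ∈ A, t z ∈ A) ∧ ∃ n : ℕ, 0 < n ∧ t ^ n = 1 := by
  have hB : B.Nodup := hp.nodup_iff.1 hA
  let e1 : Fin A.length ≃ {z // z ∈ A} := hA.getEquiv A
  let e2 : Fin B.length ≃ {z // z ∈ B} := hB.getEquiv B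
  let e3 : {z // z ∈ B} ≃ {z // z ∈ A} := Equiv.subtypeEquivRight fun z => hp.mem_iff.symm
  let t0 : Equiv.Perm {z // z ∈ A} :=
    (e1.symm.trans (finCongr hp.length_eq)).trans (e2.trans e3)
  let t : Equiv.Perm ι := Equiv.Perm.ofSubtype t0
  have ht : ∀ z (hz : z ∈ A), t z = (t0 ⟨z, hz⟩ : ι) := fun z hz =>
    Equiv.Perm.ofSubtype_apply_of_mem t0 hz
  have hget : ∀ (i : ℕ) (hi : i < A.length), t A[i] = B[i]'(hp.length_eq ▸ hi) := by
    intro i hi
    rw [ht _ (List.getElem_mem hi)]
    have h1 : e1.symm ⟨A[i], List.getElem_mem hi⟩ = ⟨i, hi⟩ := by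
      rw [Equiv.symm_apply_eq]
      rfl
    show ((e3 (e2 (finCongr hp.length_eq (e1.symm ⟨A[i], List.getElem_mem hi⟩))) :
      {z // z ∈ A}) : ι) = _
    rw [h1]
    rfl
  refine ⟨t, ?_, ?_, orderOf t0, orderOf_pos t0, ?_⟩
  · apply List.ext_getElem
    · rw [List.length_map, hp.length_eq]
    · intro i h1 h2
      rw [List.getElem_map]
      exact hget i (by simpa using h1)
  · intro z hz
    rw [ht z hz]
    exact (t0 ⟨z, hz⟩).2
  · show (Equiv.Perm.ofSubtype t0) ^ orderOf t0 = 1
    rw [← map_pow, pow_orderOf_eq_one, map_one]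

/-- The equation `x A y = y B x` has a generic solution if `B` is a permutation of `A`, different
from `A`. -/
theorem standard [Countable ι] {A B : List ι} {x y : ι} (hA : A.Nodup) (hx : x ∉ A) (hy : y ∉ A)
    (hxy : x ≠ y) (hp : A.Perm B) (hne : A ≠ B) :
    Good {(x :: (A ++ [y]), y :: (B ++ [x]))} := by
  obtain ⟨t, rfl, htA, n, hn, htn⟩ := exists_perm hA hp
  have hn3 : 3 * n - 3 + 3 = 3 * n := by omega
  have htE : ∀ z ∈ A, t^[(3 * n - 3) + 3] z = z := by
    intro z _
    rw [hn3, Equiv.Perm.iterate_eq_pow, mul_comm, pow_mul, htn, one_pow]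
    rfl
  have hne' : ∃ z ∈ A, t z ≠ z := by
    by_contra hcon
    push Not at hcon
    apply hne
    symm
    exact (List.map_congr_left hcon).trans (List.map_id A)
  refine ⟨ι ⊕ Bool, inferInstance, G A t x y (3 * n - 3), ?_, ?_⟩
  · rintro e rfl
    exact sol A t x y _ hA hx hy hxy htA htE
  · intro p q hpq
    exact generic A t x y _ hA hx hy hxy htA htE hne' _ p q rfl hpq

end

end Pool.Agent.H.MP_48f3d1_lc.Lin
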